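import Mathlib

set_option autoImplicit false

/-!
Kuhn's cubical form of the lemma of Sperner, in every dimension, proved with mod 2 cochains on
lists of grid points and the prism identity.
-/

namespace H63Fed.Kuhn

/-- Mod 2 coboundary of a function on lists, evaluated at a list. -/
def del {V : Type*} : List V → (List V → ZMod 2) → ZMod 2
  | [], _ => 0
  | v :: l, φ => φ l + del l (fun l' => φ (v :: l'))

/-- Prism operator (mod 2) with bottom map `b` and top map `t`. -/
def prism {V W : Type*} (b t : V → W) : List V → (List W → ZMod 2) → ZMod 2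
  | [], _ => 0
  | v :: l, φ => φ (b v :: t v :: l.map t) + prism b t l (fun l' => φ (b v :: l'))

theorem two_eq (a : ZMod 2) : a + a = 0 := CharTwo.add_self_eq_zero a

theorem del_add {V : Type*} (l : List V) (φ ψ : List V → ZMod 2) :
    del l (fun l' => φ l' + ψ l') = del l φ + del l ψ := by
  induction l generalizing φ ψ with
  | nil => simp [del]
  | cons v l ih =>
    simp only [del]
    rw [ih (fun l' => φ (v :: l')) (fun l' => ψ (v :: l'))]
    ring

theorem prism_add {V W : Type*} (b t : V → W) (l : List V) (φ ψ : List W → ZMod 2) :
    prism b t l (fun l' => φ l' + ψ l') = prism b t l φ + prism b t l ψ := by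
  induction l generalizing φ ψ with
  | nil => simp [prism]
  | cons v l ih =>
    simp only [prism]
    rw [ih (fun l' => φ (b v :: l')) (fun l' => ψ (b v :: l'))]
    ring

theorem del_map {V W : Type*} (t : V → W) (l : List V) (φ : List W → ZMod 2) :
    del (l.map t) φ = del l (fun l' => φ (l'.map t)) := by
  induction l generalizing φ with
  | nil => simp [del]
  | cons v l ih =>
    simp only [List.map_cons, del]
    rw [ih (fun l' => φ (t v :: l'))]

/-- The prism identity. -/
theorem prism_del {V W : Type*} (b t : V → W) (l : List V) (φ : List W → ZMod 2) :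
    prism b t l (fun l' => del l' φ) =
      del l (fun l' => prism b t l' φ) + φ (l.map t) + φ (l.map b) := by
  induction l generalizing φ with
  | nil =>
    simp only [prism, del, List.map_nil, zero_add]
    exact (two_eq _).symm
  | cons v l ih =>
    have h1 := ih (fun l' => φ (b v :: l'))
    have h2 := prism_add b t l φ (fun l' => del l' (fun l'' => φ (b v :: l'')))
    have h3 := del_add l (fun l' => φ (b v :: t v :: l'.map t))
      (fun l' => prism b t l' (fun l'' => φ (b v :: l'')))
    have h4 := del_map t l (fun l' => φ (b v :: t v :: l'))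
    simp only [prism, del, List.map_cons]
    rw [h2, h1, h3, ← h4]
    have h5 := two_eq (φ (b v :: l.map t))
    linear_combination h5

/-- If a prism value is nonzero then the function is nonzero at a list of bottom and top points. -/
theorem prism_supp {V W : Type*} (b t : V → W) (l : List V) (φ : List W → ZMod 2)
    (h : prism b t l φ ≠ 0) :
    ∃ l', φ l' ≠ 0 ∧ ∀ w ∈ l', ∃ v ∈ l, w = b v ∨ w = t v := by
  induction l generalizing φ with
  | nil => simp [prism] at h
  | cons v l ih =>
    simp only [prism] at h
    by_cases h1 : φ (b v :: t v :: l.map t) = 0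
    · rw [h1, zero_add] at h
      obtain ⟨l', h2, h3⟩ := ih _ h
      refine ⟨b v :: l', h2, ?_⟩
      intro w hw
      rcases List.mem_cons.1 hw with rfl | hw
      · exact ⟨v, List.mem_cons_self, Or.inl rfl⟩
      · obtain ⟨v', hv', e⟩ := h3 w hw
        exact ⟨v', List.mem_cons_of_mem _ hv', e⟩
    · refine ⟨_, h1, ?_⟩
      intro w hw
      rcases List.mem_cons.1 hw with rfl | hw
      · exact ⟨v, List.mem_cons_self, Or.inl rfl⟩
      rcases List.mem_cons.1 hw with rfl | hw
      · exact ⟨v, List.mem_cons_self, Or.inr rfl⟩
      · obtain ⟨v', hv', e⟩ := List.mem_map.1 hw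
        exact ⟨v', List.mem_cons_of_mem _ hv', Or.inr e.symm⟩

/-- Sum of a function over the simplices of the standard triangulation of the grid
`[0,m]^k`, the coordinates from `k` on being those of `p`. -/
def grid (m : ℕ) (p : ℕ → ℕ) : ℕ → (List (ℕ → ℕ) → ZMod 2) → ZMod 2
  | 0, φ => φ [p]
  | k + 1, φ => ∑ t ∈ Finset.range m, grid m p k (fun l =>
      prism (fun v => Function.update v k t) (fun v => Function.update v k (t + 1)) l φ)

theorem grid_add (m : ℕ) (p : ℕ → ℕ) (k : ℕ) (φ ψ : List (ℕ → ℕ) → ZMod 2) :
    grid m p k (fun l => φ l + ψ l) = grid m p k φ + grid m p k ψ := by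
  induction k generalizing φ ψ with
  | zero => simp [grid]
  | succ k ih =>
    simp only [grid, prism_add]
    rw [← Finset.sum_add_distrib]
    refine Finset.sum_congr rfl (fun t _ => ?_)
    rw [ih]

theorem grid_zero (m : ℕ) (p : ℕ → ℕ) (k : ℕ) (φ : List (ℕ → ℕ) → ZMod 2) (h : ∀ l, φ l = 0) :
    grid m p k φ = 0 := by
  have hφ : φ = fun l => φ l + φ l := by
    funext l
    rw [h l, add_zero]
  rw [hφ, grid_add, two_eq]

theorem grid_supp (m : ℕ) (p : ℕ → ℕ) (k : ℕ) (φ : List (ℕ → ℕ) → ZMod 2)
    (h : grid m p k φ ≠ 0) :
    ∃ l, φ l ≠ 0 ∧ ∃ x : ℕ → ℕ, (∀ i, i < k → x i < m) ∧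
      ∀ y ∈ l, (∀ i, i < k → y i = x i ∨ y i = x i + 1) ∧ (∀ i, k ≤ i → y i = p i) := by
  induction k generalizing φ with
  | zero =>
    refine ⟨[p], h, p, by simp, ?_⟩
    intro y hy
    rw [List.mem_singleton] at hy
    subst hy
    simp
  | succ k ih =>
    simp only [grid] at h
    obtain ⟨t, ht, h1⟩ := Finset.exists_ne_zero_of_sum_ne_zero h
    obtain ⟨l, h2, x, hx, h3⟩ := ih _ h1
    obtain ⟨l', h4, h5⟩ := prism_supp _ _ _ _ h2
    refine ⟨l', h4, Function.update x k t, ?_, ?_⟩
    · intro i hi
      by_cases hik : i = k
      · subst hik
        simpa using ht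
      · rw [Function.update_of_ne hik]
        exact hx i (by omega)
    · intro y hy
      obtain ⟨v, hv, e⟩ := h5 y hy
      obtain ⟨h6, h7⟩ := h3 v hv
      constructor
      · intro i hi
        by_cases hik : i = k
        · subst hik
          rcases e with rfl | rfl <;> simp
        · rcases e with rfl | rfl <;> simp only [Function.update_of_ne hik] <;>
            exact h6 i (by omega)
      · intro i hi
        have hik : i ≠ k := by omega
        rcases e with rfl | rfl <;> simp only [Function.update_of_ne hik] <;>
          exact h7 i (by omega)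

/-- Stokes in the last direction. -/
theorem grid_del (m : ℕ) (p : ℕ → ℕ) (k : ℕ) (φ : List (ℕ → ℕ) → ZMod 2) :
    grid m p (k + 1) (fun l => del l φ) =
      (∑ t ∈ Finset.range m, grid m p k (fun l => del l (fun l' =>
        prism (fun v => Function.update v k t) (fun v => Function.update v k (t + 1)) l' φ)))
      + grid m p k (fun l => φ (l.map (fun v => Function.update v k m)))
      + grid m p k (fun l => φ (l.map (fun v => Function.update v k 0))) := by
  have key : ∀ n : ℕ,
      (∑ t ∈ Finset.range n, grid m p k (fun l => prism (fun v => Function.update v k t)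
        (fun v => Function.update v k (t + 1)) l (fun l' => del l' φ))) =
      (∑ t ∈ Finset.range n, grid m p k (fun l => del l (fun l' =>
        prism (fun v => Function.update v k t) (fun v => Function.update v k (t + 1)) l' φ)))
      + grid m p k (fun l => φ (l.map (fun v => Function.update v k n)))
      + grid m p k (fun l => φ (l.map (fun v => Function.update v k 0))) := by
    intro n
    induction n with
    | zero =>
      simp only [Finset.range_zero, Finset.sum_empty, zero_add]
      exact (two_eq _).symm
    | succ n ih =>
      rw [Finset.sum_range_succ, Finset.sum_range_succ, ih]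
      have h1 : (fun l => prism (fun v => Function.update v k n)
          (fun v => Function.update v k (n + 1)) l (fun l' => del l' φ)) =
          fun l => (del l (fun l' => prism (fun v => Function.update v k n)
            (fun v => Function.update v k (n + 1)) l' φ) +
            φ (l.map (fun v => Function.update v k (n + 1)))) +
            φ (l.map (fun v => Function.update v k n)) := by
        funext l
        exact prism_del _ _ l φ
      rw [h1, grid_add, grid_add]
      have h2 := two_eq (grid m p k (fun l => φ (l.map (fun v => Function.update v k n))))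
      linear_combination h2
  exact key m

/-- A function vanishing on the empty list and on all the faces has a coboundary of sum zero. -/
theorem grid_del_zero (m : ℕ) (p : ℕ → ℕ) (k : ℕ) (φ : List (ℕ → ℕ) → ZMod 2)
    (h0 : φ [] = 0)
    (h : ∀ i, i < k → ∀ c, (c = 0 ∨ c = m) → ∀ l, (∀ v ∈ l, v i = c) → φ l = 0) :
    grid m p k (fun l => del l φ) = 0 := by
  induction k generalizing φ with
  | zero => simp [grid, del, h0]
  | succ k ih =>
    rw [grid_del]
    have h1 : ∀ t, grid m p k (fun l => del l (fun l' =>
        prism (fun v => Function.update v k t) (fun v => Function.update v k (t + 1)) l' φ)) = 0 := by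
      intro t
      apply ih
      · rfl
      · intro i hi c hc l hl
        by_contra hne
        obtain ⟨l', h2, h3⟩ := prism_supp _ _ _ _ hne
        apply h2
        apply h i (by omega) c hc
        intro w hw
        obtain ⟨v, hv, e⟩ := h3 w hw
        have hik : i ≠ k := by omega
        rcases e with rfl | rfl <;> simp only [Function.update_of_ne hik] <;> exact hl v hv
    have h4 : ∀ c, (c = 0 ∨ c = m) →
        grid m p k (fun l => φ (l.map (fun v => Function.update v k c))) = 0 := by
      intro c hc
      apply grid_zero
      intro l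
      apply h k (by omega) c hc
      intro v hv
      obtain ⟨w, _, rfl⟩ := List.mem_map.1 hv
      simp
    rw [h4 m (Or.inr rfl), h4 0 (Or.inl rfl)]
    simp [h1]

/-- The indicator of lists forming a given multiset. -/
def ind (R : Multiset ℕ) (L : List ℕ) : ZMod 2 := by
  classical
  exact if (L : Multiset ℕ) = R then 1 else 0

theorem del_ind (L : List ℕ) (R : Multiset ℕ) (hR : R.Nodup) :
    ((∃ a, a ∉ R ∧ (L : Multiset ℕ) = a ::ₘ R) → del L (ind R) = 1) ∧
    ((¬ ∃ a, a ∉ R ∧ (L : Multiset ℕ) = a ::ₘ R) → del L (ind R) = 0) := by
  classical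
  induction L generalizing R with
  | nil =>
    constructor
    · rintro ⟨a, -, h⟩
      rw [Multiset.coe_nil] at h
      exact absurd h.symm (Multiset.cons_ne_zero)
    · intro _; rfl
  | cons v l ih =>
    simp only [del]
    by_cases hv : v ∈ R
    · -- the head label lies in R
      have e1 : (fun l' => ind R (v :: l')) = ind (R.erase v) := by
        funext l'
        simp only [ind]
        have : ((v :: l' : List ℕ) : Multiset ℕ) = R ↔ (l' : Multiset ℕ) = R.erase v := by
          rw [← Multiset.cons_coe]
          constructor
          · intro h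
            rw [← h, Multiset.erase_cons_head]
          · intro h
            rw [h, Multiset.cons_erase hv]
        simp only [this]
      rw [e1]
      have hR' : (R.erase v).Nodup := hR.erase v
      have hvR' : v ∉ R.erase v := hR.notMem_erase
      obtain ⟨i1, i2⟩ := ih (R.erase v) hR'
      by_cases hl : (l : Multiset ℕ) = R
      · -- then both terms are one
        have hx : ind R l = 1 := by simp [ind, hl]
        have hy : del l (ind (R.erase v)) = 1 := by
          apply i1
          exact ⟨v, hvR', by rw [hl, Multiset.cons_erase hv]⟩
        rw [hx, hy]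
        constructor
        · rintro ⟨a, ha, h⟩
          exfalso
          rw [← Multiset.cons_coe, hl] at h
          have : v = a := (Multiset.cons_inj_left R).1 h
          exact ha (this ▸ hv)
        · intro _; decide
      · have hx : ind R l = 0 := by simp [ind, hl]
        rw [hx, zero_add]
        constructor
        · rintro ⟨a, ha, h⟩
          apply i1
          refine ⟨a, fun h' => ha (Multiset.mem_of_mem_erase h'), ?_⟩
          have hva : v ≠ a := fun e => ha (e ▸ hv)
          rw [← Multiset.cons_coe] at h
          have h2 : (l : Multiset ℕ) = (a ::ₘ R).erase v := by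
            rw [← h, Multiset.erase_cons_head]
          rw [h2, Multiset.erase_cons_tail _ (Ne.symm hva)]
        · intro h
          apply i2
          rintro ⟨a, ha, h'⟩
          by_cases hav : a = v
          · apply hl
            rw [h', hav, Multiset.cons_erase hv]
          · apply h
            refine ⟨a, fun h2 => ha ((Multiset.mem_erase_of_ne hav).2 h2), ?_⟩
            rw [← Multiset.cons_coe, h', Multiset.cons_swap, Multiset.cons_erase hv]
    · have e1 : (fun l' => ind R (v :: l')) = fun _ => 0 := by
        funext l'
        simp only [ind]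
        rw [if_neg]
        intro h
        apply hv
        rw [← h]
        simp
      have e2 : del l (fun _ => (0 : ZMod 2)) = 0 := by
        have := del_add l (fun _ => (0 : ZMod 2)) (fun _ => (0 : ZMod 2))
        simp only [add_zero] at this
        rw [this, two_eq]
      rw [e1, e2, add_zero]
      constructor
      · rintro ⟨a, ha, h⟩
        rw [← Multiset.cons_coe] at h
        have hmem : v ∈ a ::ₘ R := by rw [← h]; simp
        have hva : v = a := by
          rcases Multiset.mem_cons.1 hmem with h1 | h1
          · exact h1
          · exact absurd h1 hv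
        subst hva
        have : (l : Multiset ℕ) = R := (Multiset.cons_inj_right v).1 h
        simp [ind, this]
      · intro h
        simp only [ind]
        rw [if_neg]
        intro h'
        exact h ⟨v, hv, by rw [← Multiset.cons_coe, h']⟩

/-- Door indicator identity. -/
theorem del_ind_range (n : ℕ) (L : List ℕ) (hL : ∀ a ∈ L, a ≤ n + 1) :
    del L (ind (Multiset.range (n + 1))) = ind (Multiset.range (n + 2)) L := by
  classical
  obtain ⟨h1, h2⟩ := del_ind L (Multiset.range (n + 1)) (Multiset.nodup_range _)
  by_cases h : (L : Multiset ℕ) = Multiset.range (n + 2)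
  · rw [h1 ⟨n + 1, by simp, by rw [h, Multiset.range_succ (n + 1)]⟩]
    simp [ind, h]
  · rw [h2]
    · simp only [ind]
      rw [if_neg h]
    · rintro ⟨a, ha, e⟩
      apply h
      have ha2 : a ∈ L := by
        have : a ∈ (L : Multiset ℕ) := by rw [e]; simp
        simpa using this
      have ha3 := hL a ha2
      rw [Multiset.mem_range] at ha
      have : a = n + 1 := by omega
      rw [e, this, Multiset.range_succ (n + 1)]

/-- The number of completely labelled simplices is odd. -/
theorem kuhn_parity (m : ℕ) (p : ℕ → ℕ) (n : ℕ) (lam : (ℕ → ℕ) → ℕ)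
    (h1 : ∀ x, lam x ≤ n)
    (h2 : ∀ i, i < n → ∀ x : ℕ → ℕ, x i = 0 → lam x ≠ i)
    (h3 : ∀ i, i < n → ∀ x : ℕ → ℕ, x i = m → lam x ≤ i) :
    grid m p n (fun l => ind (Multiset.range (n + 1)) (l.map lam)) = 1 := by
  classical
  induction n generalizing lam with
  | zero =>
    have : lam p = 0 := Nat.le_zero.1 (h1 p)
    simp [grid, ind, this]
  | succ n ih =>
    have e1 : (fun l : List (ℕ → ℕ) => ind (Multiset.range (n + 1 + 1)) (l.map lam)) =
        fun l => del l (fun l' => ind (Multiset.range (n + 1)) (l'.map lam)) := by
      funext l
      rw [← del_map lam l (ind (Multiset.range (n + 1))), del_ind_range]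
      intro a ha
      obtain ⟨x, _, rfl⟩ := List.mem_map.1 ha
      exact h1 x
    -- door indicator vanishes when a label is missing
    have miss : ∀ (l : List (ℕ → ℕ)) (j : ℕ), j ≤ n → (∀ v ∈ l, lam v ≠ j) →
        ind (Multiset.range (n + 1)) (l.map lam) = 0 := by
      intro l j hj hl
      simp only [ind]
      rw [if_neg]
      intro e
      have : j ∈ ((l.map lam : List ℕ) : Multiset ℕ) := by
        rw [e, Multiset.mem_range]; omega
      rw [Multiset.mem_coe, List.mem_map] at this
      obtain ⟨v, hv, hvj⟩ := this
      exact hl v hv hvj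
    rw [e1, grid_del]
    have a1 : ∀ t, grid m p n (fun l => del l (fun l' =>
        prism (fun v => Function.update v n t) (fun v => Function.update v n (t + 1)) l'
          (fun l'' => ind (Multiset.range (n + 1)) (l''.map lam)))) = 0 := by
      intro t
      apply grid_del_zero
      · rfl
      · intro i hi c hc l hl
        by_contra hne
        obtain ⟨l', h4, h5⟩ := prism_supp _ _ _ _ hne
        apply h4
        have hin : i ≠ n := by omega
        have h6 : ∀ w ∈ l', w i = c := by
          intro w hw
          obtain ⟨v, hv, e⟩ := h5 w hw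
          rcases e with rfl | rfl <;> simp only [Function.update_of_ne hin] <;> exact hl v hv
        rcases hc with hc | hc
        · exact miss l' i (by omega) (fun v hv => h2 i (by omega) v (by rw [h6 v hv, hc]))
        · refine miss l' n le_rfl (fun v hv => ?_)
          have := h3 i (by omega) v (by rw [h6 v hv, hc])
          omega
    have a2 : grid m p n (fun l => ind (Multiset.range (n + 1))
        ((l.map (fun v => Function.update v n 0)).map lam)) = 0 := by
      apply grid_zero
      intro l
      refine miss _ n le_rfl ?_
      intro v hv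
      obtain ⟨w, _, rfl⟩ := List.mem_map.1 hv
      exact h2 n (by omega) _ (by simp)
    have a3 := ih (fun x => lam (Function.update x n m))
      (fun x => h3 n (by omega) _ (by simp))
      (fun i hi x hx => h2 i (by omega) _ (by rw [Function.update_of_ne (by omega)]; exact hx))
      (fun i hi x hx => h3 i (by omega) _ (by rw [Function.update_of_ne (by omega)]; exact hx))
    have a4 : (fun l : List (ℕ → ℕ) => ind (Multiset.range (n + 1))
        ((l.map (fun v => Function.update v n m)).map lam)) =
        fun l => ind (Multiset.range (n + 1)) (l.map (fun x => lam (Function.update x n m))) := by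
      funext l
      rw [List.map_map]
      rfl
    rw [a2, a4, a3, Finset.sum_eq_zero (fun t _ => a1 t)]
    simp

/-- **Kuhn's lemma.** Let the points of the grid `{0,…,m}^n` (written as functions `ℕ → ℕ`, only
the first `n` coordinates matter) be labelled by `0,…,n` so that a point with `x i = 0` does not
have label `i` and a point with `x i = m` has label at most `i`. Then some unit cube carries all
the labels. -/
theorem kuhn (n m : ℕ) (lam : (ℕ → ℕ) → ℕ)
    (h1 : ∀ x : ℕ → ℕ, (∀ i, x i ≤ m) → lam x ≤ n)
    (h2 : ∀ i, i < n → ∀ x : ℕ → ℕ, (∀ i, x i ≤ m) → x i = 0 → lam x ≠ i)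
    (h3 : ∀ i, i < n → ∀ x : ℕ → ℕ, (∀ i, x i ≤ m) → x i = m → lam x ≤ i) :
    ∃ x : ℕ → ℕ, (∀ i, i < n → x i < m) ∧ ∀ j, j ≤ n → ∃ y : ℕ → ℕ,
      (∀ i, i < n → y i = x i ∨ y i = x i + 1) ∧ (∀ i, n ≤ i → y i = 0) ∧ lam y = j := by
  classical
  have hc : ∀ x : ℕ → ℕ, ∀ i, (fun i => min (x i) m) i ≤ m := fun x i => min_le_right _ _
  have := kuhn_parity m (fun _ => 0) n (fun x => lam (fun i => min (x i) m))
    (fun x => h1 _ (hc x))
    (fun i hi x hx => h2 i hi _ (hc x) (by simp [hx]))
    (fun i hi x hx => h3 i hi _ (hc x) (by simp [hx]))
  have hne : grid m (fun _ => 0) n (fun l => ind (Multiset.range (n + 1))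
      (l.map (fun x => lam (fun i => min (x i) m)))) ≠ 0 := by
    rw [this]; decide
  obtain ⟨l, h4, x, hx, h5⟩ := grid_supp _ _ _ _ hne
  refine ⟨x, hx, ?_⟩
  intro j hj
  simp only [ind, ne_eq, ite_eq_right_iff, one_ne_zero, imp_false, not_not] at h4
  have hmem : j ∈ ((l.map (fun x => lam (fun i => min (x i) m)) : List ℕ) : Multiset ℕ) := by
    rw [h4, Multiset.mem_range]; omega
  rw [Multiset.mem_coe, List.mem_map] at hmem
  obtain ⟨y, hy, hyj⟩ := hmem
  obtain ⟨h6, h7⟩ := h5 y hy
  refine ⟨y, h6, h7, ?_⟩
  have : (fun i => min (y i) m) = y := by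
    funext i
    by_cases hi : i < n
    · have := hx i hi
      rcases h6 i hi with h | h <;> simp only [h] <;> omega
    · rw [h7 i (by omega)]; simp
  rw [this] at hyj
  exact hyj

end H63Fed.Kuhn
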