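import Mathlib
import Pool.Agent.H63Fed.Kuhn

set_option autoImplicit false

/-!
The theorem of Poincare and Miranda on a cube, deduced from Kuhn's lemma, and a consequence for
maps of the closed ball of Euclidean three-space.
-/

namespace H63Fed.Miranda

open Filter Topology

/-- Discrete step: for every mesh there are a base point and points nearby with the right signs. -/
theorem approx (n : ℕ) (F : (Fin n → ℝ) → (Fin n → ℝ))
    (h0 : ∀ x : Fin n → ℝ, (∀ i, 0 ≤ x i ∧ x i ≤ 1) → ∀ i, x i = 0 → F x i ≤ 0)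
    (h1 : ∀ x : Fin n → ℝ, (∀ i, 0 ≤ x i ∧ x i ≤ 1) → ∀ i, x i = 1 → 0 ≤ F x i)
    (m : ℕ) (hm : 0 < m) :
    ∃ x : Fin n → ℝ, (∀ i, 0 ≤ x i ∧ x i ≤ 1) ∧
      (∃ z : Fin n → ℝ, (∀ i, 0 ≤ z i ∧ z i ≤ 1) ∧ (∀ i, |z i - x i| ≤ 1 / m) ∧
        ∀ i, F z i ≤ 0) ∧
      (∀ i, ∃ y : Fin n → ℝ, (∀ j, 0 ≤ y j ∧ y j ≤ 1) ∧ (∀ j, |y j - x j| ≤ 1 / m) ∧
        0 ≤ F y i) := by
  classical
  have hmR : (0 : ℝ) < m := by exact_mod_cast hm
  -- the real point of a grid point
  let pt : (ℕ → ℕ) → (Fin n → ℝ) := fun x i => (x i : ℝ) / m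
  have hpt : ∀ x : ℕ → ℕ, (∀ i, i < n → x i ≤ m) → ∀ i : Fin n, 0 ≤ pt x i ∧ pt x i ≤ 1 := by
    intro x hx i
    refine ⟨by positivity, ?_⟩
    simp only [pt]
    rw [div_le_one hmR]
    exact_mod_cast hx i i.2
  -- the condition of coordinate `i`
  let C : (ℕ → ℕ) → ℕ → Prop := fun x i => ∃ h : i < n, 0 < F (pt x) ⟨i, h⟩ ∨ x i = m
  let lam : (ℕ → ℕ) → ℕ := fun x => if h : ∃ i, C x i then Nat.find h else n
  have lam_le : ∀ x, lam x ≤ n := by
    intro x
    simp only [lam]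
    split_ifs with h
    · exact (Nat.find_spec h).1.le
    · exact le_rfl
  have lam_spec : ∀ x i, i < n → lam x = i → C x i := by
    intro x i hi h
    simp only [lam] at h
    split_ifs at h with h'
    · rw [← h]; exact Nat.find_spec h'
    · omega
  have lam_min : ∀ x i, C x i → lam x ≤ i := by
    intro x i h
    simp only [lam]
    rw [dif_pos ⟨i, h⟩]
    exact Nat.find_min' _ h
  obtain ⟨x, hx, hall⟩ := Kuhn.kuhn n m lam (fun x _ => lam_le x)
    (by
      intro i hi x hx hxi h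
      obtain ⟨h', h2⟩ := lam_spec x i hi h
      rcases h2 with h2 | h2
      · have := h0 (pt x) (hpt x (fun j _ => hx j)) ⟨i, h'⟩ (by simp [pt, hxi])
        linarith
      · omega)
    (by
      intro i hi x _ hxi
      exact lam_min x i ⟨hi, Or.inr hxi⟩)
  have near : ∀ y : ℕ → ℕ, (∀ i, i < n → y i = x i ∨ y i = x i + 1) →
      (∀ i : Fin n, 0 ≤ pt y i ∧ pt y i ≤ 1) ∧ ∀ i : Fin n, |pt y i - pt x i| ≤ 1 / m := by
    intro y hy
    constructor
    · apply hpt
      intro i hi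
      have := hx i hi
      rcases hy i hi with h | h <;> omega
    · intro i
      simp only [pt]
      rw [← sub_div, abs_div, abs_of_pos hmR]
      gcongr
      rcases hy i i.2 with h | h <;> rw [h] <;> simp
  refine ⟨pt x, hpt x (fun i hi => (hx i hi).le), ?_, ?_⟩
  · obtain ⟨y, hy, -, hlam⟩ := hall n le_rfl
    obtain ⟨h2, h3⟩ := near y hy
    refine ⟨pt y, h2, h3, ?_⟩
    intro i
    by_contra hcon
    push Not at hcon
    have := lam_min y i ⟨i.2, Or.inl hcon⟩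
    have := i.2
    omega
  · intro i
    obtain ⟨y, hy, -, hlam⟩ := hall i i.2.le
    obtain ⟨h2, h3⟩ := near y hy
    refine ⟨pt y, h2, h3, ?_⟩
    obtain ⟨h', h4⟩ := lam_spec y i i.2 hlam
    rcases h4 with h4 | h4
    · exact h4.le
    · apply h1 _ h2
      simp only [pt, h4]
      field_simp

/-- **Poincare–Miranda.** -/
theorem poincare_miranda (n : ℕ) (F : (Fin n → ℝ) → (Fin n → ℝ))
    (hF : ContinuousOn F {x | ∀ i, 0 ≤ x i ∧ x i ≤ 1})
    (h0 : ∀ x : Fin n → ℝ, (∀ i, 0 ≤ x i ∧ x i ≤ 1) → ∀ i, x i = 0 → F x i ≤ 0)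
    (h1 : ∀ x : Fin n → ℝ, (∀ i, 0 ≤ x i ∧ x i ≤ 1) → ∀ i, x i = 1 → 0 ≤ F x i) :
    ∃ x : Fin n → ℝ, (∀ i, 0 ≤ x i ∧ x i ≤ 1) ∧ F x = 0 := by
  classical
  have hK : IsCompact {x : Fin n → ℝ | ∀ i, 0 ≤ x i ∧ x i ≤ 1} := by
    have : {x : Fin n → ℝ | ∀ i, 0 ≤ x i ∧ x i ≤ 1} = Set.pi Set.univ (fun _ => Set.Icc 0 1) := by
      ext x
      simp only [Set.mem_pi, Set.mem_univ, true_implies, Set.mem_Icc]
      rfl
    rw [this]
    exact isCompact_univ_pi (fun _ => isCompact_Icc)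
  choose x hx hz hy using fun k : ℕ => approx n F h0 h1 (k + 1) (Nat.succ_pos k)
  obtain ⟨a, ha, φ, hφ, hlim⟩ := hK.tendsto_subseq (x := x) hx
  refine ⟨a, ha, ?_⟩
  have hsmall : Tendsto (fun k : ℕ => 1 / (((φ k + 1 : ℕ)) : ℝ)) atTop (𝓝 0) := by
    have h2 := tendsto_one_div_add_atTop_nhds_zero_nat (𝕜 := ℝ)
    have h3 := h2.comp hφ.tendsto_atTop
    refine h3.congr (fun k => ?_)
    simp
  -- any nearby sequence converges to `a` inside the cube
  have conv : ∀ w : ℕ → (Fin n → ℝ), (∀ k, ∀ i, 0 ≤ w k i ∧ w k i ≤ 1) →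
      (∀ k, ∀ i, |w k i - x (φ k) i| ≤ 1 / ((φ k + 1 : ℕ) : ℝ)) →
      Tendsto (fun k => F (w k)) atTop (𝓝 (F a)) := by
    intro w hw hwx
    have h2 : Tendsto w atTop (𝓝 a) := by
      rw [tendsto_pi_nhds]
      intro i
      have h3 : Tendsto (fun k => x (φ k) i) atTop (𝓝 (a i)) :=
        (tendsto_pi_nhds.1 hlim) i
      have h4 : Tendsto (fun k => w k i - x (φ k) i) atTop (𝓝 0) :=
        squeeze_zero_norm (fun k => by rw [Real.norm_eq_abs]; exact hwx k i) hsmall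
      have h5 := h4.add h3
      simpa using h5
    have h3 : Tendsto w atTop (𝓝[{x | ∀ i, 0 ≤ x i ∧ x i ≤ 1}] a) :=
      tendsto_nhdsWithin_iff.2 ⟨h2, Eventually.of_forall hw⟩
    exact (hF a ha).tendsto.comp h3
  funext i
  apply le_antisymm
  · choose z hz1 hz2 hz3 using hz
    have h2 := conv (fun k => z (φ k)) (fun k => hz1 (φ k)) (fun k i => hz2 (φ k) i)
    have h3 := (tendsto_pi_nhds.1 h2) i
    exact le_of_tendsto' h3 (fun k => hz3 (φ k) i)
  · choose y hy1 hy2 hy3 using fun k => hy k i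
    have h2 := conv (fun k => y (φ k)) (fun k => hy1 (φ k)) (fun k i => hy2 (φ k) i)
    have h3 := (tendsto_pi_nhds.1 h2) i
    exact ge_of_tendsto' h3 (fun k => hy3 (φ k))

/-- A continuous map from the closed unit ball to `ℝ^n` which on the sphere points outwards in
the sense of the largest coordinate has a zero. -/
theorem ball_zero (n : ℕ) (Φ : EuclideanSpace ℝ (Fin n) → (Fin n → ℝ))
    (hΦ : ContinuousOn Φ (Metric.closedBall (0 : EuclideanSpace ℝ (Fin n)) 1))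
    (hpos : ∀ x : EuclideanSpace ℝ (Fin n), ‖x‖ = 1 → ∀ i, (∀ j, |x j| ≤ x i) → 0 ≤ Φ x i)
    (hneg : ∀ x : EuclideanSpace ℝ (Fin n), ‖x‖ = 1 → ∀ i, (∀ j, |x j| ≤ - x i) → Φ x i ≤ 0) :
    ∃ x ∈ Metric.closedBall (0 : EuclideanSpace ℝ (Fin n)) 1, Φ x = 0 := by
  -- point of the cube `[0,1]^n` to the point of `[-1,1]^n` to the ball
  let c : (Fin n → ℝ) → EuclideanSpace ℝ (Fin n) := fun x => WithLp.toLp 2 (fun i => 2 * x i - 1)
  have hc : Continuous c := by
    apply (PiLp.continuous_toLp 2 _).comp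
    fun_prop
  let h : (Fin n → ℝ) → EuclideanSpace ℝ (Fin n) := fun x => (max 1 ‖c x‖)⁻¹ • c x
  have hh1 : Continuous (fun x => (max 1 ‖c x‖)⁻¹) := by
    apply Continuous.inv₀
    · exact continuous_const.max hc.norm
    · intro x
      have : (1 : ℝ) ≤ max 1 ‖c x‖ := le_max_left _ _
      linarith
  have hh : Continuous h := hh1.smul hc
  have hball : ∀ x, h x ∈ Metric.closedBall (0 : EuclideanSpace ℝ (Fin n)) 1 := by
    intro x
    rw [mem_closedBall_zero_iff]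
    simp only [h]
    rw [norm_smul, norm_inv, Real.norm_of_nonneg (by positivity)]
    rw [inv_mul_le_one₀ (by positivity)]
    exact le_max_right _ _
  -- on the boundary of the cube the norm of `c x` is at least one
  have hnorm : ∀ (x : Fin n → ℝ) (i : Fin n), |c x i| = 1 → 1 ≤ ‖c x‖ := by
    intro x i hi
    have := PiLp.norm_apply_le (c x) i
    rwa [Real.norm_eq_abs, hi] at this
  have hsph : ∀ (x : Fin n → ℝ) (i : Fin n), |c x i| = 1 → ‖h x‖ = 1 ∧ max 1 ‖c x‖ = ‖c x‖ := by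
    intro x i hi
    have h1 := hnorm x i hi
    have h2 : max 1 ‖c x‖ = ‖c x‖ := max_eq_right h1
    refine ⟨?_, h2⟩
    simp only [h]
    rw [h2, norm_smul, norm_inv, norm_norm]
    exact inv_mul_cancel₀ (by positivity)
  have habs : ∀ (x : Fin n → ℝ), (∀ i, 0 ≤ x i ∧ x i ≤ 1) → ∀ j, |c x j| ≤ 1 := by
    intro x hx j
    have := hx j
    change |2 * x j - 1| ≤ 1
    rw [abs_le]
    constructor <;> linarith [this.1, this.2]
  obtain ⟨x, hx, hx0⟩ := poincare_miranda n (fun x => Φ (h x))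
    (hΦ.comp hh.continuousOn (fun x _ => hball x))
    (by
      intro x hx i hxi
      have h1 : c x i = -1 := by change 2 * x i - 1 = -1; rw [hxi]; ring
      obtain ⟨h2, h3⟩ := hsph x i (by rw [h1]; simp)
      apply hneg _ h2
      intro j
      have h4 : (h x) j = (max 1 ‖c x‖)⁻¹ * c x j := rfl
      have h5 : (h x) i = (max 1 ‖c x‖)⁻¹ * c x i := rfl
      rw [h4, h5, h1, abs_mul, abs_of_pos (by positivity : (0 : ℝ) < (max 1 ‖c x‖)⁻¹)]
      have := habs x hx j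
      have hp : (0 : ℝ) < (max 1 ‖c x‖)⁻¹ := by positivity
      nlinarith)
    (by
      intro x hx i hxi
      have h1 : c x i = 1 := by change 2 * x i - 1 = 1; rw [hxi]; ring
      obtain ⟨h2, h3⟩ := hsph x i (by rw [h1]; simp)
      apply hpos _ h2
      intro j
      have h4 : (h x) j = (max 1 ‖c x‖)⁻¹ * c x j := rfl
      have h5 : (h x) i = (max 1 ‖c x‖)⁻¹ * c x i := rfl
      rw [h4, h5, h1, abs_mul, abs_of_pos (by positivity : (0 : ℝ) < (max 1 ‖c x‖)⁻¹)]
      have := habs x hx j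
      have hp : (0 : ℝ) < (max 1 ‖c x‖)⁻¹ := by positivity
      nlinarith)
  exact ⟨h x, hball x, hx0⟩

end H63Fed.Miranda
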