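import Mathlib
import Pool.Agent.H63Kunen.Basic

/-!
# Fedorcuk's question, part A: a Baire one selection meeting all closed sets
-/

set_option autoImplicit false

namespace H63Fed

open Set Filter Topology Cardinal H63Kunen

/-! ### lexicographic minima -/

theorem exists_lm (T : Set Om) : ∃ l : Om, ∀ n, (l n = false ↔ ∃ u ∈ T, u ∈ cyl l n ∧ u n = false) := by
  classical
  obtain ⟨l, hl⟩ := wf_choice (α := ℕ) (β := Bool) (fun m n => m < n) wellFounded_lt
    (fun n f b => (b = false ↔ ∃ u ∈ T, (∀ i (hi : i < n), u i = f i hi) ∧ u n = false)) (by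
      intro n f
      by_cases h : ∃ u ∈ T, (∀ i (hi : i < n), u i = f i hi) ∧ u n = false
      · exact ⟨false, by simpa using h⟩
      · exact ⟨true, by simpa using h⟩)
  exact ⟨l, hl⟩

noncomputable def lm (T : Set Om) : Om := (exists_lm T).choose

theorem lm_spec (T : Set Om) (n : ℕ) : lm T n = false ↔ ∃ u ∈ T, u ∈ cyl (lm T) n ∧ u n = false :=
  (exists_lm T).choose_spec n

theorem mem_of_cyl {T : Set Om} (hT : IsClosed T) {x : Om} (h : ∀ n, ∃ u ∈ T, u ∈ cyl x n) :
    x ∈ T := by
  rw [← hT.closure_eq, mem_closure_iff_nhds_basis (nhds_cyl x)]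
  intro n _
  exact h n

theorem lm_mem (T : Set Om) (hT : IsClosed T) (hne : T.Nonempty) : lm T ∈ T := by
  apply mem_of_cyl hT
  intro n
  induction n with
  | zero =>
    obtain ⟨u, hu⟩ := hne
    exact ⟨u, hu, fun i hi => absurd hi (Nat.not_lt_zero i)⟩
  | succ n ih =>
    obtain ⟨u, hu, hc⟩ := ih
    cases hl : lm T n with
    | false =>
      obtain ⟨v, hv, hvc, hvn⟩ := (lm_spec T n).1 hl
      refine ⟨v, hv, fun i hi => ?_⟩
      rcases Nat.lt_succ_iff_lt_or_eq.1 hi with h | h
      · exact hvc i h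
      · rw [h, hvn, hl]
    | true =>
      refine ⟨u, hu, fun i hi => ?_⟩
      rcases Nat.lt_succ_iff_lt_or_eq.1 hi with h | h
      · exact hc i h
      · rw [h, hl]
        by_contra hun
        have : u n = false := by simpa using hun
        have := (lm_spec T n).2 ⟨u, hu, hc, this⟩
        rw [hl] at this
        cases this

theorem cyl_congr {x y : Om} {n : ℕ} (h : ∀ i, i < n → x i = y i) : cyl x n = cyl y n := by
  ext u
  constructor
  · intro hu i hi
    rw [hu i hi, h i hi]
  · intro hu i hi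
    rw [hu i hi, h i hi]

theorem lm_conv (T : ℕ → Set Om) (hT : ∀ n, IsClosed (T n)) (ha : ∀ m n, m ≤ n → T n ⊆ T m)
    (N : ℕ) : ∃ n0, ∀ n, n0 ≤ n → ∀ i, i < N → lm (T n) i = lm (⋂ n, T n) i := by
  induction N with
  | zero => exact ⟨0, fun n _ i hi => absurd hi (Nat.not_lt_zero i)⟩
  | succ N ih =>
    obtain ⟨n0, hn0⟩ := ih
    set l := lm (⋂ n, T n) with hl
    cases hlN : l N with
    | false =>
      refine ⟨n0, fun n hn i hi => ?_⟩
      rcases Nat.lt_succ_iff_lt_or_eq.1 hi with h | h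
      · exact hn0 n hn i h
      · rw [h, hlN]
        rw [hl, lm_spec] at hlN
        obtain ⟨u, hu, huc, huN⟩ := hlN
        rw [lm_spec]
        refine ⟨u, mem_iInter.1 hu n, ?_, huN⟩
        rw [cyl_congr (hn0 n hn)]
        exact huc
    | true =>
      have h1 : ∃ n1, T n1 ∩ (cyl l N ∩ {u | u N = false}) = ∅ := by
        by_contra hcon
        push Not at hcon
        have hclo : IsClosed (cyl l N ∩ {u : Om | u N = false}) :=
          (isClosed_cyl _ _).inter (isClosed_eq (continuous_apply N) continuous_const)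
        have := IsCompact.nonempty_iInter_of_sequence_nonempty_isCompact_isClosed
          (fun n => T n ∩ (cyl l N ∩ {u | u N = false}))
          (fun n => inter_subset_inter_left _ (ha n (n+1) (Nat.le_succ n)))
          hcon ((hT 0).inter hclo).isCompact
          (fun n => (hT n).inter hclo)
        obtain ⟨u, hu⟩ := this
        rw [mem_iInter] at hu
        have : l N = false := by
          rw [hl, lm_spec]
          exact ⟨u, mem_iInter.2 fun n => (hu n).1, (hu 0).2.1, (hu 0).2.2⟩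
        rw [hlN] at this
        cases this
      obtain ⟨n1, hn1⟩ := h1
      refine ⟨max n0 n1, fun n hn i hi => ?_⟩
      rcases Nat.lt_succ_iff_lt_or_eq.1 hi with h | h
      · exact hn0 n (le_trans (le_max_left _ _) hn) i h
      · rw [h, hlN]
        by_contra hun
        have h2 : lm (T n) N = false := by simpa using hun
        rw [lm_spec] at h2
        obtain ⟨u, hu, huc, huN⟩ := h2
        rw [cyl_congr (hn0 n (le_trans (le_max_left _ _) hn))] at huc
        have : u ∈ T n1 ∩ (cyl l N ∩ {u | u N = false}) :=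
          ⟨ha n1 n (le_trans (le_max_right _ _) hn) hu, huc, huN⟩
        rw [hn1] at this
        exact this

theorem lm_tendsto (T : ℕ → Set Om) (hT : ∀ n, IsClosed (T n)) (ha : ∀ m n, m ≤ n → T n ⊆ T m) :
    Tendsto (fun n => lm (T n)) atTop (𝓝 (lm (⋂ n, T n))) := by
  rw [tendsto_pi_nhds]
  intro i
  rw [nhds_discrete, tendsto_pure]
  obtain ⟨n0, hn0⟩ := lm_conv T hT ha (i+1)
  exact eventually_atTop.2 ⟨n0, fun n hn => hn0 n hn i (Nat.lt_succ_self i)⟩

/-- basic rectangles -/
theorem exists_rect : ∃ (a b : ℕ → Om) (k : ℕ → ℕ), ∀ x y : Om, ∀ n, ∃ m, k m = n ∧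
    cyl (a m) (k m) = cyl x n ∧ cyl (b m) (k m) = cyl y n := by
  obtain ⟨d, hd⟩ := TopologicalSpace.exists_dense_seq Om
  have hd' : ∀ x : Om, ∀ n, ∃ i, cyl (d i) n = cyl x n := by
    intro x n
    obtain ⟨i, hi⟩ := hd.exists_mem_open (isOpen_cyl x n) ⟨x, self_mem_cyl x n⟩
    exact ⟨i, cyl_congr hi⟩
  refine ⟨fun m => d (Nat.unpair m).1, fun m => d (Nat.unpair (Nat.unpair m).2).1,
    fun m => (Nat.unpair (Nat.unpair m).2).2, fun x y n => ?_⟩
  obtain ⟨i, hi⟩ := hd' x n
  obtain ⟨j, hj⟩ := hd' y n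
  refine ⟨Nat.pair i (Nat.pair j n), ?_⟩
  simp [hi, hj]

/-- the data: a Baire one selection -/
structure HD (Q : Type) [MetricSpace Q] : Type where
  rr : Om → ℕ → Q
  h : Om → Q
  q0 : Q
  loc : ∀ c c' n, c' ∈ cyl c n → rr c' n = rr c n
  lim : ∀ c, Tendsto (rr c) atTop (𝓝 (h c))
  hit : ∀ K : Set (Om × Q), IsClosed K → (∀ c, ∃ q, (c, q) ∈ K) → ∀ F : Set Om, #F < continuum →
    ∃ c, c ∉ F ∧ (c, h c) ∈ K

theorem exists_HD (Q : Type) [MetricSpace Q] [CompactSpace Q] [Nonempty Q] : Nonempty (HD Q) := by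
  classical
  obtain ⟨θ, hθc, hθs⟩ := exists_nat_bool_continuous_surjective_of_compact Q
  obtain ⟨a, b, k, hrect⟩ := exists_rect
  let T : Om → ℕ → Set Om := fun c n =>
    {u | ∀ m, 2 * m < n → k m ≤ n → c (2 * m) = true → ¬ (c ∈ cyl (a m) (k m) ∧ u ∈ cyl (b m) (k m))}
  have hTc : ∀ c n, IsClosed (T c n) := by
    intro c n
    have : T c n = ⋂ m, {u | 2 * m < n → k m ≤ n → c (2 * m) = true →
        ¬ (c ∈ cyl (a m) (k m) ∧ u ∈ cyl (b m) (k m))} := by
      ext u
      simp [T]
    rw [this]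
    refine isClosed_iInter fun m => ?_
    by_cases hh : 2 * m < n ∧ k m ≤ n ∧ c (2 * m) = true ∧ c ∈ cyl (a m) (k m)
    · have : {u | 2 * m < n → k m ≤ n → c (2 * m) = true →
        ¬ (c ∈ cyl (a m) (k m) ∧ u ∈ cyl (b m) (k m))} = (cyl (b m) (k m))ᶜ := by
        ext u
        constructor
        · intro h h'
          exact h hh.1 hh.2.1 hh.2.2.1 ⟨hh.2.2.2, h'⟩
        · intro h _ _ _ h'
          exact h h'.2
      rw [this]
      exact (isOpen_cyl _ _).isClosed_compl
    · have : {u | 2 * m < n → k m ≤ n → c (2 * m) = true →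
        ¬ (c ∈ cyl (a m) (k m) ∧ u ∈ cyl (b m) (k m))} = Set.univ := by
        ext u
        constructor
        · intro _
          trivial
        · intro _ h1 h2 h3 h4
          exact hh ⟨h1, h2, h3, h4.1⟩
      rw [this]
      exact isClosed_univ
  have hTa : ∀ c, ∀ m n, m ≤ n → T c n ⊆ T c m := by
    intro c m n hmn u hu m' h1 h2 h3
    exact hu m' (lt_of_lt_of_le h1 hmn) (h2.trans hmn) h3
  have hTl : ∀ c c' n, c' ∈ cyl c n → T c' n ⊆ T c n := by
    intro c c' n hc u hu m h1 h2 h3 h4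
    refine hu m h1 h2 ?_ ⟨?_, h4.2⟩
    · rw [hc _ h1]
      exact h3
    · intro i hi
      rw [hc i (lt_of_lt_of_le hi h2)]
      exact h4.1 i hi
  refine ⟨{ rr := fun c n => θ (lm (T c n)), h := fun c => θ (lm (⋂ n, T c n)),
            q0 := Classical.arbitrary Q, loc := ?_, lim := ?_, hit := ?_ }⟩
  · intro c c' n hc
    have hc' : c ∈ cyl c' n := fun i hi => (hc i hi).symm
    rw [Subset.antisymm (hTl c c' n hc) (hTl c' c n hc')]
  · intro c
    exact (hθc.tendsto _).comp (lm_tendsto (T c) (hTc c) (hTa c))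
  · intro K hK hfull F hF
    let Kt : Set (Om × Om) := {p | (p.1, θ p.2) ∈ K}
    have hKt : IsClosed Kt := hK.preimage (continuous_fst.prodMk (hθc.comp continuous_snd))
    let cx : Om → Om := fun x n => if n % 2 = 0 then
      decide (Disjoint (cyl (a (n / 2)) (k (n / 2)) ×ˢ cyl (b (n / 2)) (k (n / 2))) Kt)
      else x (n / 2)
    have hcx1 : ∀ x m, cx x (2 * m) = decide (Disjoint (cyl (a m) (k m) ×ˢ cyl (b m) (k m)) Kt) := by
      intro x m
      have h1 : 2 * m % 2 = 0 := by omega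
      have h2 : 2 * m / 2 = m := by omega
      simp only [cx, h1, h2, if_true]
    have hcx2 : ∀ x m, cx x (2 * m + 1) = x m := by
      intro x m
      have h1 : (2 * m + 1) % 2 = 1 := by omega
      have h2 : (2 * m + 1) / 2 = m := by omega
      simp only [cx, h1, h2]
      simp
    have hinj : Function.Injective cx := by
      intro x y hxy
      funext m
      rw [← hcx2 x m, ← hcx2 y m, hxy]
    obtain ⟨x, hx⟩ : ∃ x, cx x ∉ F := by
      by_contra hcon
      push Not at hcon
      have h1 : #Om ≤ #F := mk_le_of_injective (f := fun x : Om => (⟨cx x, hcon x⟩ : F))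
        (fun a b hab => hinj (congrArg Subtype.val hab))
      rw [mk_Om] at h1
      exact absurd h1 (not_le.2 hF)
    refine ⟨cx x, hx, ?_⟩
    set c := cx x with hc
    have hT1 : ∀ u, (c, u) ∈ Kt → u ∈ ⋂ n, T c n := by
      intro u hu
      refine mem_iInter.2 fun n m h1 h2 h3 h4 => ?_
      rw [hc, hcx1] at h3
      have h5 : Disjoint (cyl (a m) (k m) ×ˢ cyl (b m) (k m)) Kt := by simpa using h3
      exact Set.disjoint_left.1 h5 (show (c, u) ∈ _ from h4) hu
    have hT2 : ∀ u, u ∈ ⋂ n, T c n → (c, u) ∈ Kt := by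
      intro u hu
      by_contra hcon
      have h1 := hKt.isOpen_compl.mem_nhds (show (c, u) ∈ Ktᶜ from hcon)
      obtain ⟨⟨n, n'⟩, -, hn⟩ := ((nhds_cyl c).prod_nhds (nhds_cyl u)).mem_iff.1 h1
      obtain ⟨m, hm1, hm2, hm3⟩ := hrect c u (max n n')
      have h5 : Disjoint (cyl (a m) (k m) ×ˢ cyl (b m) (k m)) Kt := by
        rw [Set.disjoint_left, hm2, hm3]
        rintro p ⟨hp1, hp2⟩ hpK
        exact hn (show p ∈ cyl c n ×ˢ cyl u n' from
          ⟨cyl_anti _ (le_max_left _ _) hp1, cyl_anti _ (le_max_right _ _) hp2⟩) hpK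
      have h6 : c (2 * m) = true := by
        rw [hc, hcx1]
        simpa using h5
      have h7 := mem_iInter.1 hu (max (2 * m + 1) (k m)) m
        (lt_of_lt_of_le (Nat.lt_succ_self _) (le_max_left _ _)) (le_max_right _ _) h6
      apply h7
      rw [hm2, hm3]
      exact ⟨self_mem_cyl _ _, self_mem_cyl _ _⟩
    have hne : (⋂ n, T c n).Nonempty := by
      obtain ⟨q, hq⟩ := hfull c
      obtain ⟨u, rfl⟩ := hθs q
      exact ⟨u, hT1 u hq⟩
    exact hT2 _ (lm_mem _ (isClosed_iInter fun n => hTc c n) hne)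

end H63Fed
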