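import Mathlib
import Pool.Agent.H63Fed.A

/-!
# Fedorcuk's question, part B: the recursion
-/

set_option autoImplicit false

namespace H63Fed

open Set Filter Topology Cardinal H63Kunen

abbrev E : Type := Om × Bool

variable {Q : Type} [MetricSpace Q] (D : HD Q)

open Classical in
noncomputable def hh (b c : Om) : Q := if b = c then D.h b else D.rr b (fd b c)

noncomputable def hs (y z : E) : Q := if y.2 = z.2 then D.q0 else hh D y.1 z.1

noncomputable def mu (y z : E) : E × E × Q := (y, z, hs D y z)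

theorem fd_comm (x y : Om) : fd x y = fd y x := by
  by_cases h : x = y
  · rw [h]
  · refine fd_unique ?_ ?_
    · exact (fd_spec (fun h' => h h'.symm)).symm
    · intro i hi
      exact (eq_of_lt_fd hi).symm

theorem mem_cyl_fd (x y : Om) : x ∈ cyl y (fd x y) := fun _ hi => eq_of_lt_fd hi

theorem hh_self (b : Om) : hh D b b = D.h b := by
  unfold hh
  rw [if_pos rfl]

theorem hh_ne {b c : Om} (h : b ≠ c) : hh D b c = D.rr b (fd b c) := by
  unfold hh
  rw [if_neg h]

theorem hh_comm (b c : Om) : hh D b c = hh D c b := by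
  by_cases h : b = c
  · rw [h]
  · rw [hh_ne D h, hh_ne D (Ne.symm h), fd_comm b c]
    exact D.loc _ _ _ (by rw [fd_comm c b]; exact mem_cyl_fd b c)

theorem hh_loc {x y b c : Om} {n : ℕ} (hne : x ≠ y) (hn : fd x y < n) (hb : b ∈ cyl x n)
    (hc : c ∈ cyl y n) : b ≠ c ∧ fd b c = fd x y ∧ hh D b c = hh D x y := by
  have h1 : b (fd x y) ≠ c (fd x y) := by
    rw [hb _ hn, hc _ hn]
    exact fd_spec hne
  have h2 : fd b c = fd x y := by
    refine fd_unique h1 fun i hi => ?_
    rw [hb i (hi.trans hn), hc i (hi.trans hn)]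
    exact eq_of_lt_fd hi
  have h3 : b ≠ c := fun h => h1 (by rw [h])
  refine ⟨h3, h2, ?_⟩
  rw [hh_ne D h3, hh_ne D hne, h2]
  exact D.loc _ _ _ (cyl_anti _ hn.le hb)

/-- continuity of `hh` at `(c, c)` along a pair of sets -/
def ContF (g : Bool → Om → Bool) (c : Om) : Prop :=
  ∀ ε : ℝ, 0 < ε → ∃ n : ℕ, ∀ b b', g false b = true → b ∈ cyl c n → g true b' = true →
    b' ∈ cyl c n → dist (hh D b b') (D.h c) ≤ ε

theorem ContF_ev {g : Bool → Om → Bool} {c : Om} (h : ContF D g c) {ε : ℝ} (hε : 0 < ε) :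
    ∀ᶠ n : ℕ in atTop, ∀ b b', g false b = true → b ∈ cyl c n → g true b' = true →
    b' ∈ cyl c n → dist (hh D b b') (D.h c) ≤ ε := by
  obtain ⟨n, hn⟩ := h ε hε
  refine eventually_atTop.2 ⟨n, fun m hm b b' h1 h2 h3 h4 => hn b b' h1 (cyl_anti _ hm h2) h3
    (cyl_anti _ hm h4)⟩

theorem exists_N (R : Om → Om → Prop) (wf : WellFounded R) (G : Om → ℕ → Bool → Set Om)
    (hGf : ∀ c δ i, (G c δ i).Finite) (hGR : ∀ c δ i a, a ∈ G c δ i → R a c) :
    ∃ (N : Om → Bool → Om → Bool) (ℓ : Om → ℕ → ℕ),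
      (∀ c i w, N c i w = true ↔ (w = c ∨ (w ≠ c ∧ ∃ a ∈ G c (fd w c) i, N a i w = true ∧
        w ∈ cyl a (ℓ c (fd w c))))) ∧
      (∀ c δ, ∀ a ∈ G c δ false, ∀ a' ∈ G c δ true, a ≠ a' → fd a a' < ℓ c δ) ∧
      (∀ c, (∀ a, R a c → ContF D (N a) a) → ∀ δ, ∀ a ∈ G c δ false, a ∈ G c δ true →
        ∀ b b', N a false b = true → b ∈ cyl a (ℓ c δ) → N a true b' = true →
          b' ∈ cyl a (ℓ c δ) → dist (hh D b b') (D.h a) ≤ 1 / ((δ : ℝ) + 1)) := by
  classical
  obtain ⟨pick, hpick⟩ := wf_choice (α := Om) (β := (Bool → Om → Bool) × (ℕ → ℕ)) R wf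
    (fun c f b =>
      (∀ i w, b.1 i w = true ↔ (w = c ∨ (w ≠ c ∧ ∃ a, ∃ ha : a ∈ G c (fd w c) i,
        (f a (hGR _ _ _ _ ha)).1 i w = true ∧ w ∈ cyl a (b.2 (fd w c))))) ∧
      (∀ δ, ∀ a ∈ G c δ false, ∀ a' ∈ G c δ true, a ≠ a' → fd a a' < b.2 δ) ∧
      ((∀ a, ∀ ha : R a c, ContF D (f a ha).1 a) → ∀ δ, ∀ a, ∀ ha : a ∈ G c δ false,
        a ∈ G c δ true →
        ∀ u u', (f a (hGR _ _ _ _ ha)).1 false u = true → u ∈ cyl a (b.2 δ) →
          (f a (hGR _ _ _ _ ha)).1 true u' = true →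
          u' ∈ cyl a (b.2 δ) → dist (hh D u u') (D.h a) ≤ 1 / ((δ : ℝ) + 1))) (by
      intro c f
      have key : ∀ δ : ℕ, ∃ l : ℕ,
          (∀ a ∈ G c δ false, ∀ a' ∈ G c δ true, a ≠ a' → fd a a' < l) ∧
          ((∀ a, ∀ ha : R a c, ContF D (f a ha).1 a) → ∀ a, ∀ ha : a ∈ G c δ false,
            a ∈ G c δ true →
            ∀ u u', (f a (hGR _ _ _ _ ha)).1 false u = true → u ∈ cyl a l →
              (f a (hGR _ _ _ _ ha)).1 true u' = true →
              u' ∈ cyl a l → dist (hh D u u') (D.h a) ≤ 1 / ((δ : ℝ) + 1)) := by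
        intro δ
        have e1 : ∀ᶠ l : ℕ in atTop, ∀ a ∈ G c δ false, ∀ a' ∈ G c δ true, a ≠ a' →
            fd a a' < l := by
          rw [eventually_all_finite (hGf c δ false)]
          intro a _
          rw [eventually_all_finite (hGf c δ true)]
          intro a' _
          filter_upwards [eventually_gt_atTop (fd a a')] with l hl _
          exact hl
        have e2 : (∀ a, ∀ ha : R a c, ContF D (f a ha).1 a) → ∀ᶠ l : ℕ in atTop,
            ∀ a ∈ G c δ false, ∀ ha : a ∈ G c δ false,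
            a ∈ G c δ true →
            ∀ u u', (f a (hGR _ _ _ _ ha)).1 false u = true → u ∈ cyl a l →
              (f a (hGR _ _ _ _ ha)).1 true u' = true →
              u' ∈ cyl a l → dist (hh D u u') (D.h a) ≤ 1 / ((δ : ℝ) + 1) := by
          intro hc
          rw [eventually_all_finite (hGf c δ false)]
          intro a ha
          have hpos : (0 : ℝ) < 1 / ((δ : ℝ) + 1) := by positivity
          filter_upwards [ContF_ev D (hc a (hGR _ _ _ _ ha)) hpos] with l hl _ _
          exact hl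
        by_cases hc : ∀ a, ∀ ha : R a c, ContF D (f a ha).1 a
        · obtain ⟨l, h1, h2⟩ := (e1.and (e2 hc)).exists
          exact ⟨l, h1, fun _ a ha => h2 a ha ha⟩
        · obtain ⟨l, h1⟩ := e1.exists
          exact ⟨l, h1, fun hc' => absurd hc' hc⟩
      choose ℓ hℓ1 hℓ2 using key
      refine ⟨(fun i w => decide (w = c ∨ (w ≠ c ∧ ∃ a, ∃ ha : a ∈ G c (fd w c) i,
        (f a (hGR _ _ _ _ ha)).1 i w = true ∧ w ∈ cyl a (ℓ (fd w c)))), ℓ), ?_, hℓ1, ?_⟩
      · intro i w
        exact decide_eq_true_iff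
      · intro hc δ
        exact hℓ2 δ hc)
  refine ⟨fun c => (pick c).1, fun c => (pick c).2, ?_, ?_, ?_⟩
  · intro c i w
    rw [(hpick c).1 i w]
    constructor
    · rintro (h | ⟨h1, a, ha, h2, h3⟩)
      · exact Or.inl h
      · exact Or.inr ⟨h1, a, ha, h2, h3⟩
    · rintro (h | ⟨h1, a, ha, h2, h3⟩)
      · exact Or.inl h
      · exact Or.inr ⟨h1, a, ha, h2, h3⟩
  · intro c
    exact (hpick c).2.1
  · intro c hc δ a ha ha'
    exact (hpick c).2.2 hc δ a ha ha'

section props

variable (R : Om → Om → Prop) (wf : WellFounded R) (G : Om → ℕ → Bool → Set Om)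
    (hGf : ∀ c δ i, (G c δ i).Finite) (hGR : ∀ c δ i a, a ∈ G c δ i → R a c)
    (N : Om → Bool → Om → Bool) (ℓ : Om → ℕ → ℕ)
    (hN : ∀ c i w, N c i w = true ↔ (w = c ∨ (w ≠ c ∧ ∃ a ∈ G c (fd w c) i, N a i w = true ∧
        w ∈ cyl a (ℓ c (fd w c)))))

include wf hGf hGR hN

theorem N_loc : ∀ x w i, ∃ n, ∃ β : Bool, ∀ w' ∈ cyl w n, N x i w' = (β && N w i w') := by
  classical
  intro x
  induction x using wf.induction with
  | _ x ih =>
    intro w i
    by_cases hw : w = x
    · subst hw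
      exact ⟨0, true, fun w' _ => by simp⟩
    · have h1 : ∀ a ∈ G x (fd w x) i, ∃ β : Bool, ∀ᶠ n : ℕ in atTop, ∀ w' ∈ cyl w n,
          N a i w' = (β && N w i w') := by
        intro a ha
        obtain ⟨n, β, h⟩ := ih a (hGR _ _ _ _ ha) w i
        exact ⟨β, eventually_atTop.2 ⟨n, fun m hm w' hw' => h w' (cyl_anti _ hm hw')⟩⟩
      choose! β hβ using h1
      have h2 : ∀ᶠ n : ℕ in atTop, ∀ a ∈ G x (fd w x) i, ∀ w' ∈ cyl w n,
          N a i w' = (β a && N w i w') := by
        rw [eventually_all_finite (hGf _ _ _)]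
        exact hβ
      obtain ⟨n, hn1, hn2, hn3⟩ := (h2.and ((eventually_ge_atTop (fd w x + 1)).and
        (eventually_ge_atTop (ℓ x (fd w x))))).exists
      refine ⟨n, decide (∃ a ∈ G x (fd w x) i, β a = true ∧ w ∈ cyl a (ℓ x (fd w x))), ?_⟩
      intro w' hw'
      obtain ⟨h3, h4⟩ := fd_nhd hw (cyl_anti w hn2 hw')
      rw [Bool.eq_iff_iff, hN x i w', Bool.and_eq_true, decide_eq_true_iff, h4]
      constructor
      · rintro (h | ⟨_, a, ha, h5, h6⟩)
        · exact absurd h h3
        · rw [hn1 a ha w' hw', Bool.and_eq_true] at h5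
          refine ⟨⟨a, ha, h5.1, ?_⟩, h5.2⟩
          intro j hj
          rw [← hw' j (lt_of_lt_of_le hj hn3)]
          exact h6 j hj
      · rintro ⟨⟨a, ha, h5, h6⟩, h7⟩
        refine Or.inr ⟨h3, a, ha, ?_, ?_⟩
        · rw [hn1 a ha w' hw', h5, h7]
          rfl
        · intro j hj
          rw [hw' j (lt_of_lt_of_le hj hn3)]
          exact h6 j hj

theorem N_cnt : ∀ x i, {w | N x i w = true}.Countable := by
  intro x
  induction x using wf.induction with
  | _ x ih =>
    intro i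
    have hsub : {w | N x i w = true} ⊆
        {x} ∪ ⋃ d : ℕ, ⋃ a ∈ G x d i, {w | N a i w = true} := by
      intro w hw
      rcases (hN x i w).1 hw with h | ⟨_, a, ha, h1, _⟩
      · exact Or.inl h
      · right
        simp only [mem_iUnion]
        exact ⟨_, a, ha, h1⟩
    refine Countable.mono hsub (Countable.union (countable_singleton x) ?_)
    exact countable_iUnion fun d => (hGf x d i).countable.biUnion fun a ha => ih a (hGR _ _ _ _ ha) i

omit hGf hGR in
theorem N_cont (hℓ1 : ∀ c δ, ∀ a ∈ G c δ false, ∀ a' ∈ G c δ true, a ≠ a' → fd a a' < ℓ c δ)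
    (hℓ2 : ∀ c, (∀ a, R a c → ContF D (N a) a) → ∀ δ, ∀ a ∈ G c δ false, a ∈ G c δ true →
        ∀ b b', N a false b = true → b ∈ cyl a (ℓ c δ) → N a true b' = true →
          b' ∈ cyl a (ℓ c δ) → dist (hh D b b') (D.h a) ≤ 1 / ((δ : ℝ) + 1))
    (hcond : ∀ c, ∀ ε : ℝ, 0 < ε → ∃ M : ℕ, ∀ δ, M ≤ δ → ∀ a ∈ G c δ false,
      ∀ a' ∈ G c δ true, dist (hh D a a') (D.h c) ≤ ε) : ∀ c, ContF D (N c) c := by
  intro c
  induction c using wf.induction with
  | _ c ih =>
    intro ε hε
    have e1 : ∀ᶠ n in atTop, dist (D.rr c n) (D.h c) < ε :=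
      (Metric.tendsto_nhds.1 (D.lim c)) ε hε
    obtain ⟨n1, hn1⟩ := eventually_atTop.1 e1
    obtain ⟨M, hM⟩ := hcond c (ε / 2) (by linarith)
    obtain ⟨M', hM'⟩ := exists_nat_one_div_lt (show (0 : ℝ) < ε / 2 by linarith)
    have hrr : ∀ b b' : Om, ∀ n, max n1 (max M M') ≤ n → b ∈ cyl c n → b ≠ b' → fd b b' = n →
        dist (hh D b b') (D.h c) ≤ ε := by
      intro b b' n hn hb hne hfd
      rw [hh_ne D hne, hfd, D.loc _ _ _ hb]
      exact (hn1 n (le_trans (le_max_left _ _) hn)).le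
    have key : ∀ b b' : Om, b ∈ cyl c (max n1 (max M M')) → b' ∈ cyl c (max n1 (max M M')) →
        b ≠ c → (b' ≠ c → fd b c < fd b' c) → dist (hh D b b') (D.h c) ≤ ε := by
      intro b b' hb hb' hbc hlt
      have h1 : max n1 (max M M') ≤ fd b c := le_fd hbc hb
      have h2 : b' (fd b c) = c (fd b c) := by
        by_cases h : b' = c
        · rw [h]
        · exact mem_cyl_fd b' c _ (hlt h)
      have h3 : ∀ i, i < fd b c → b i = b' i := by
        intro i hi
        rw [mem_cyl_fd b c i hi]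
        by_cases h : b' = c
        · rw [h]
        · exact (mem_cyl_fd b' c i (hi.trans (hlt h))).symm
      have h4 : b (fd b c) ≠ b' (fd b c) := by
        rw [h2]
        exact fd_spec hbc
      exact hrr b b' (fd b c) h1 (mem_cyl_fd b c) (fun h => h4 (by rw [h])) (fd_unique h4 h3)
    refine ⟨max n1 (max M M'), fun b b' h1 h2 h3 h4 => ?_⟩
    by_cases hb : b = c
    · by_cases hb' : b' = c
      · rw [hb, hb', hh_self, dist_self]
        exact hε.le
      · rw [hh_comm]
        exact key b' b h4 h2 hb' (fun h => absurd hb h)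
    · by_cases hb' : b' = c
      · exact key b b' h2 h4 hb (fun h => absurd hb' h)
      · rcases lt_trichotomy (fd b c) (fd b' c) with h | h | h
        · exact key b b' h2 h4 hb (fun _ => h)
        · rcases (hN c false b).1 h1 with h' | ⟨_, a, ha, h5, h6⟩
          · exact absurd h' hb
          rcases (hN c true b').1 h3 with h' | ⟨_, a', ha', h7, h8⟩
          · exact absurd h' hb'
          rw [← h] at ha' h8
          have hge : max n1 (max M M') ≤ fd b c := le_fd hb h2
          have hM1 : M ≤ fd b c := le_trans (le_trans (le_max_left _ _) (le_max_right _ _)) hge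
          have hM2 : M' ≤ fd b c := le_trans (le_trans (le_max_right _ _) (le_max_right _ _)) hge
          have h9 := hM _ hM1 a ha a' ha'
          by_cases haa : a = a'
          · subst haa
            have h10 := hℓ2 c (fun x hx => ih x hx) _ a ha ha' b b' h5 h6 h7 h8
            rw [hh_self] at h9
            have h11 : (1 : ℝ) / ((fd b c : ℝ) + 1) ≤ 1 / ((M' : ℝ) + 1) := by
              apply one_div_le_one_div_of_le
              · positivity
              · have : (M' : ℝ) ≤ fd b c := by exact_mod_cast hM2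
                linarith
            have h12 := dist_triangle (hh D b b') (D.h a) (D.h c)
            linarith
          · have h10 := (hh_loc D haa (hℓ1 c _ a ha a' ha' haa) h6 h8).2.2
            rw [h10]
            linarith
        · rw [hh_comm]
          exact key b' b h4 h2 hb' (fun _ => h)

end props

end H63Fed
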