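import Mathlib
import Pool.Agent.H63Fed.B

/-!
# Fedorcuk's question, part C: the handlers
-/

set_option autoImplicit false

namespace H63Fed

open Set Filter Topology Cardinal H63Kunen

variable {Q : Type} [MetricSpace Q] (D : HD Q)

abbrev Sq : Type := ℕ → ℕ → E × E

/-- base points of a pair -/
def bs (p : E × E) : Set Om := {p.1.1, p.2.1}

def coords (P : Sq) : Set Om := {x | ∃ n k, x ∈ bs (P n k)}

theorem bs_finite (p : E × E) : (bs p).Finite := (Set.finite_singleton _).insert _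

theorem coords_countable (P : Sq) : (coords P).Countable := by
  have : coords P ⊆ ⋃ n : ℕ, ⋃ k : ℕ, bs (P n k) := by
    rintro x ⟨n, k, h⟩
    exact mem_iUnion.2 ⟨n, mem_iUnion.2 ⟨k, h⟩⟩
  exact Countable.mono this (countable_iUnion fun n => countable_iUnion fun k =>
    (bs_finite _).countable)

/-- eligible tasks -/
def Elig (κ : ℕ → E × E × Q) : Prop :=
  ∀ F : Set Om, #F < continuum → ∃ y z : E, y.1 ∉ F ∧ z.1 ∉ F ∧ mu D y z ∈ closure (range κ)

/-- basic neighbourhoods -/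
def BE (N : Om → Bool → Om → Bool) (y : E) (l : ℕ) : Set E :=
  {w | w.1 ∈ cyl y.1 l ∧ w.2 = y.2 ∧ N y.1 y.2 w.1 = true}

structure Good (N : Om → Bool → Om → Bool) : Prop where
  self : ∀ c i, N c i c = true
  loc : ∀ x w i, ∃ n, ∃ β : Bool, ∀ w' ∈ cyl w n, N x i w' = (β && N w i w')
  cnt : ∀ x i, {w | N x i w = true}.Countable
  cont : ∀ c, ContF D (N c) c
  hG : ∀ (P : Sq) (κ : ℕ → E × E × Q), Elig D κ → ∃ y z : E,
    mu D y z ∈ closure (range κ) ∧
    ∀ n, mu D y z ∈ closure (range fun k => mu D (P n k).1 (P n k).2) →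
      ∀ l, ∃ k, (P n k).1 ∈ BE N y l ∧ (P n k).2 ∈ BE N z l

/-- neighbourhood of a pair in the closure sense -/
def MB (y z : E) (l : ℕ) (p : E × E) : Prop :=
  p.1.1 ∈ cyl y.1 l ∧ p.1.2 = y.2 ∧ p.2.1 ∈ cyl z.1 l ∧ p.2.2 = z.2 ∧
    dist (hs D p.1 p.2) (hs D y z) ≤ 1 / ((l : ℝ) + 1)

theorem mem_MB {S : Set (E × E)} {y z : E}
    (h : mu D y z ∈ closure ((fun p : E × E => mu D p.1 p.2) '' S)) (l : ℕ) :
    ∃ p ∈ S, MB D y z l p := by
  have hpos : (0 : ℝ) < 1 / ((l : ℝ) + 1) := by positivity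
  let U : Set (E × E × Q) := ((cyl y.1 l) ×ˢ {y.2}) ×ˢ (((cyl z.1 l) ×ˢ {z.2}) ×ˢ
    Metric.ball (hs D y z) (1 / ((l : ℝ) + 1)))
  have hU : IsOpen U := ((isOpen_cyl _ _).prod (isOpen_discrete _)).prod
    (((isOpen_cyl _ _).prod (isOpen_discrete _)).prod Metric.isOpen_ball)
  obtain ⟨q, hqU, p, hp, rfl⟩ := mem_closure_iff.1 h U hU
    ⟨⟨self_mem_cyl _ _, rfl⟩, ⟨self_mem_cyl _ _, rfl⟩, Metric.mem_ball_self hpos⟩
  refine ⟨p, hp, hqU.1.1, hqU.1.2, hqU.2.1.1, hqU.2.1.2, ?_⟩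
  have h1 := hqU.2.2
  exact (Metric.mem_ball.1 h1).le

theorem MB_anti {y z : E} {l l' : ℕ} (hl : l ≤ l') {p : E × E} (h : MB D y z l' p) :
    MB D y z l p := by
  obtain ⟨h1, h2, h3, h4, h5⟩ := h
  refine ⟨cyl_anti _ hl h1, h2, cyl_anti _ hl h3, h4, h5.trans ?_⟩
  apply one_div_le_one_div_of_le
  · positivity
  · have : (l : ℝ) ≤ l' := by exact_mod_cast hl
    linarith

theorem exists_seq (P : Sq) (y z : E) (hy : y.1 ∉ coords P) (hz : z.1 ∉ coords P) :
    ∃ (e : ℕ → E × E) (Df : Set ℕ) (L : ℕ → ℕ), StrictMono L ∧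
      (∀ m ∈ Df, MB D y z m (e m) ∧ bs (e m) ⊆ coords P ∧
        L m ≤ fd (e m).1.1 y.1 ∧ fd (e m).1.1 y.1 < L (m + 1) ∧
        L m ≤ fd (e m).2.1 z.1 ∧ fd (e m).2.1 z.1 < L (m + 1)) ∧
      (∀ n, mu D y z ∈ closure (range fun k => mu D (P n k).1 (P n k).2) →
        ∀ l, ∃ m ∈ Df, l ≤ m ∧ ∃ k, e m = P n k) := by
  classical
  have hsel : ∀ m l : ℕ, ∃ p : E × E,
      mu D y z ∈ closure (range fun k => mu D (P (Nat.unpair m).1 k).1 (P (Nat.unpair m).1 k).2) →
        (∃ k, p = P (Nat.unpair m).1 k) ∧ MB D y z l p := by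
    intro m l
    by_cases h : mu D y z ∈
        closure (range fun k => mu D (P (Nat.unpair m).1 k).1 (P (Nat.unpair m).1 k).2)
    · have h' : (range fun k => mu D (P (Nat.unpair m).1 k).1 (P (Nat.unpair m).1 k).2) =
          (fun p : E × E => mu D p.1 p.2) '' (range (P (Nat.unpair m).1)) := by
        rw [← range_comp]
        rfl
      rw [h'] at h
      obtain ⟨p, ⟨k, rfl⟩, hp⟩ := mem_MB D h l
      exact ⟨_, fun _ => ⟨⟨k, rfl⟩, hp⟩⟩
    · exact ⟨(y, z), fun h' => absurd h' h⟩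
  choose sel hsl using hsel
  let L : ℕ → ℕ := fun m => Nat.rec 0
    (fun m l => max l (max (fd (sel m l).1.1 y.1) (fd (sel m l).2.1 z.1)) + 1) m
  have hL : ∀ m, L (m + 1) =
      max (L m) (max (fd (sel m (L m)).1.1 y.1) (fd (sel m (L m)).2.1 z.1)) + 1 := fun m => rfl
  have hL1 : ∀ m, L m < L (m + 1) := fun m => by rw [hL]; omega
  have hmono : StrictMono L := strictMono_nat_of_lt_succ hL1
  have hLm : ∀ m, m ≤ L m := fun m => hmono.id_le m
  refine ⟨fun m => sel m (L m), {m | mu D y z ∈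
    closure (range fun k => mu D (P (Nat.unpair m).1 k).1 (P (Nat.unpair m).1 k).2)}, L, hmono,
    ?_, ?_⟩
  · intro m hm
    obtain ⟨⟨k, hk⟩, h2⟩ := hsl m (L m) hm
    have hb : bs (sel m (L m)) ⊆ coords P := fun x hx => ⟨_, k, hk ▸ hx⟩
    have hne1 : (sel m (L m)).1.1 ≠ y.1 := fun h => hy (h ▸ hb (Or.inl rfl))
    have hne2 : (sel m (L m)).2.1 ≠ z.1 := fun h => hz (h ▸ hb (Or.inr rfl))
    refine ⟨MB_anti D (hLm m) h2, hb, le_fd hne1 h2.1, ?_, le_fd hne2 h2.2.2.1, ?_⟩
    · rw [hL]; dsimp only; omega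
    · rw [hL]; dsimp only; omega
  · intro n hn l
    refine ⟨Nat.pair n l, ?_, Nat.right_le_pair n l, ?_⟩
    · change mu D y z ∈ closure (range fun k => mu D (P (Nat.unpair (Nat.pair n l)).1 k).1
        (P (Nat.unpair (Nat.pair n l)).1 k).2)
      rw [Nat.unpair_pair]
      exact hn
    · have := (hsl (Nat.pair n l) (L (Nat.pair n l)) (by rw [Nat.unpair_pair]; exact hn)).1
      obtain ⟨k, hk⟩ := this
      refine ⟨k, ?_⟩
      dsimp only
      rw [hk, Nat.unpair_pair]

theorem mk_Q_le [CompactSpace Q] [Nonempty Q] : #Q ≤ continuum := by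
  obtain ⟨θ, _, hθs⟩ := exists_nat_bool_continuous_surjective_of_compact Q
  have := mk_le_of_surjective hθs
  rwa [show #(ℕ → Bool) = continuum from mk_Om] at this

abbrev Task : Type := {t : Sq × (ℕ → E × E × Q) // Elig D t.2}

theorem mk_task_le [CompactSpace Q] [Nonempty Q] : #(Task D) ≤ continuum := by
  refine (mk_subtype_le _).trans ?_
  have h1 : #E = continuum := by simp [E, Om]
  have h3 : #Sq = continuum := by
    simp only [Sq]
    rw [← mk_congr (Equiv.curry ℕ ℕ (E × E))]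
    simp [Om, E]
  have h4 : #(E × E × Q) ≤ continuum := by
    rw [mk_prod E, lift_id, lift_id, mk_prod E, lift_id, lift_id, h1]
    calc continuum * (continuum * #Q) ≤ continuum * (continuum * continuum) := by
          gcongr
          exact mk_Q_le
      _ = continuum := by simp
  have h5 : #(ℕ → E × E × Q) ≤ continuum := by
    rw [← power_def]
    calc #(E × E × Q) ^ #ℕ ≤ continuum ^ #ℕ := power_le_power_right h4
      _ = continuum := by simp
  rw [mk_prod, h3, lift_id, lift_id]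
  calc continuum * #(ℕ → E × E × Q) ≤ continuum * continuum := by gcongr
    _ = continuum := by simp

/-- selection of handlers -/
theorem exists_pick [CompactSpace Q] [Nonempty Q] :
    ∃ (r : Task D → Task D → Prop) (_ : IsWellOrder (Task D) r)
    (pick : Task D → E × E), ∀ i : Task D,
      mu D (pick i).1 (pick i).2 ∈ closure (range i.1.2) ∧
      (∀ x ∈ bs (pick i), x ∉ coords i.1.1) ∧
      (∀ j, r j i → ∀ x ∈ bs (pick i), x ∉ coords j.1.1 ∧ x ∉ bs (pick j)) := by
  classical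
  obtain ⟨r, wo, hr⟩ := Cardinal.exists_ord_eq (Task D)
  refine ⟨r, wo, ?_⟩
  have hsmall : ∀ i, #{j // r j i} < continuum := by
    intro i
    refine lt_of_lt_of_le ?_ (mk_task_le D)
    have := Cardinal.card_typein_lt i hr
    rwa [Ordinal.card_typein] at this
  refine wf_choice (α := Task D) (β := E × E) r wo.wf (fun i f b =>
      mu D b.1 b.2 ∈ closure (range i.1.2) ∧
      (∀ x ∈ bs b, x ∉ coords i.1.1) ∧
      (∀ j (hj : r j i), ∀ x ∈ bs b, x ∉ coords j.1.1 ∧ x ∉ bs (f j hj))) ?_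
  intro i f
  let W : {j // r j i} → Set Om := fun j => coords j.1.1.1 ∪ bs (f j.1 j.2)
  have hW : ∀ j, (W j).Countable := fun j =>
    (coords_countable _).union (bs_finite _).countable
  let F : Set Om := coords i.1.1 ∪ ⋃ j, W j
  have hF : #F < continuum := by
    refine lt_of_le_of_lt (mk_union_le _ _) ?_
    refine add_lt_of_lt aleph0_le_continuum ?_ ?_
    · exact lt_of_le_of_lt (coords_countable _).le_aleph0 aleph0_lt_continuum
    · refine lt_of_le_of_lt (mk_iUnion_le_sum_mk) ?_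
      refine lt_of_le_of_lt (sum_le_sum _ (fun _ => ℵ₀) fun j => (hW j).le_aleph0) ?_
      rw [sum_const']
      exact mul_lt_of_lt aleph0_le_continuum (hsmall i) aleph0_lt_continuum
  obtain ⟨y, z, hy, hz, h1⟩ := i.2 F hF
  refine ⟨(y, z), h1, ?_, ?_⟩
  · rintro x (rfl | rfl)
    · exact fun h => hy (Or.inl h)
    · exact fun h => hz (Or.inl h)
  · intro j hj
    have hy' : y.1 ∉ W ⟨j, hj⟩ := fun h => hy (Or.inr (mem_iUnion.2 ⟨_, h⟩))
    have hz' : z.1 ∉ W ⟨j, hj⟩ := fun h => hz (Or.inr (mem_iUnion.2 ⟨_, h⟩))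
    rintro x (rfl | rfl)
    · exact ⟨fun h => hy' (Or.inl h), fun h => hy' (Or.inr h)⟩
    · exact ⟨fun h => hz' (Or.inl h), fun h => hz' (Or.inr h)⟩

theorem exists_good [CompactSpace Q] [Nonempty Q] : ∃ N : Om → Bool → Om → Bool, Good D N := by
  classical
  obtain ⟨r, wo, pick, hpick⟩ := exists_pick D
  have huniq : ∀ i j x, x ∈ bs (pick i) → x ∈ bs (pick j) → i = j := by
    intro i j x hi hj
    rcases trichotomous_of r i j with h' | h' | h'
    · exact absurd hi ((hpick j).2.2 i h' x hj).2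
    · exact h'
    · exact absurd hj ((hpick i).2.2 j h' x hi).2
  have hco : ∀ i j x, x ∈ bs (pick j) → x ∈ coords i.1.1 → r j i := by
    intro i j x hj hi
    rcases trichotomous_of r i j with h' | h' | h'
    · exact absurd hi ((hpick j).2.2 i h' x hj).1
    · subst h'
      exact absurd hi ((hpick i).2.1 x hj)
    · exact h'
  have hseq := fun i : Task D => exists_seq D i.1.1 (pick i).1 (pick i).2
    ((hpick i).2.1 _ (Or.inl rfl)) ((hpick i).2.1 _ (Or.inr rfl))
  choose e Df L hLm he1 he2 using hseq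
  let R : Om → Om → Prop := fun a b => ∃ i, b ∈ bs (pick i) ∧ a ∈ coords i.1.1
  have hRwf : WellFounded R := by
    have h1 : ∀ i, ∀ x ∈ bs (pick i), Acc R x := by
      intro i
      induction i using wo.wf.induction with
      | _ i ih =>
        intro x hx
        refine Acc.intro _ fun a ha => ?_
        obtain ⟨i', hi', ha'⟩ := ha
        have := huniq _ _ _ hi' hx
        subst this
        by_cases hh : ∃ j, a ∈ bs (pick j)
        · obtain ⟨j, hj⟩ := hh
          exact ih j (hco _ _ _ hj ha') a hj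
        · refine Acc.intro _ fun b hb => ?_
          obtain ⟨j, hj, _⟩ := hb
          exact absurd ⟨j, hj⟩ hh
    refine ⟨fun a => ?_⟩
    by_cases hh : ∃ j, a ∈ bs (pick j)
    · obtain ⟨j, hj⟩ := hh
      exact h1 j a hj
    · refine Acc.intro _ fun b hb => ?_
      obtain ⟨j, hj, _⟩ := hb
      exact absurd ⟨j, hj⟩ hh
  let G : Om → ℕ → Bool → Set Om := fun c δ i =>
    {x | ∃ τ : Task D, ∃ m ∈ Df τ, ((pick τ).1 = (c, i) ∧ x = (e τ m).1.1 ∧ fd x c = δ) ∨
      ((pick τ).2 = (c, i) ∧ x = (e τ m).2.1 ∧ fd x c = δ)}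
  have hG1 : ∀ c δ i x, x ∈ G c δ i → ∃ τ : Task D, ∃ m ∈ Df τ, c ∈ bs (pick τ) ∧
      x ∈ bs (e τ m) ∧ L τ m ≤ δ ∧ δ < L τ (m + 1) := by
    rintro c δ i x ⟨τ, m, hm, ⟨h1, h2, h3⟩ | ⟨h1, h2, h3⟩⟩
    · refine ⟨τ, m, hm, ?_, ?_, ?_, ?_⟩
      · left; rw [h1]
      · left; exact h2
      · have := (he1 τ m hm).2.2.1
        rw [← h2, h1] at this
        rw [← h3]
        exact this
      · have := (he1 τ m hm).2.2.2.1
        rw [← h2, h1] at this
        rw [← h3]
        exact this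
    · refine ⟨τ, m, hm, ?_, ?_, ?_, ?_⟩
      · right; rw [h1]; rfl
      · right; exact h2
      · have := (he1 τ m hm).2.2.2.2.1
        rw [← h2, h1] at this
        rw [← h3]
        exact this
      · have := (he1 τ m hm).2.2.2.2.2
        rw [← h2, h1] at this
        rw [← h3]
        exact this
  have hGf : ∀ c δ i, (G c δ i).Finite := by
    intro c δ i
    by_cases hh : ∃ τ, c ∈ bs (pick τ)
    · obtain ⟨τ, hτ⟩ := hh
      have hsub : G c δ i ⊆ ⋃ m ∈ Finset.range (δ + 1), bs (e τ m) := by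
        intro x hx
        obtain ⟨τ', m, hm, h1, h2, h3, h4⟩ := hG1 c δ i x hx
        have := huniq _ _ _ h1 hτ
        subst this
        simp only [mem_iUnion]
        exact ⟨m, Finset.mem_range.2 (Nat.lt_succ_of_le (((hLm τ').id_le m).trans h3)), h2⟩
      exact (Set.Finite.biUnion (Finset.finite_toSet _) fun m _ => bs_finite _).subset hsub
    · have : G c δ i = ∅ := by
        rw [Set.eq_empty_iff_forall_notMem]
        intro x hx
        obtain ⟨τ', m, hm, h1, _⟩ := hG1 c δ i x hx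
        exact hh ⟨τ', h1⟩
      rw [this]
      exact Set.finite_empty
  have hGR : ∀ c δ i a, a ∈ G c δ i → R a c := by
    intro c δ i a ha
    obtain ⟨τ, m, hm, h1, h2, -⟩ := hG1 c δ i a ha
    exact ⟨τ, h1, (he1 τ m hm).2.1 h2⟩
  have hcond : ∀ c, ∀ ε : ℝ, 0 < ε → ∃ M : ℕ, ∀ δ, M ≤ δ → ∀ a ∈ G c δ false,
      ∀ a' ∈ G c δ true, dist (hh D a a') (D.h c) ≤ ε := by
    intro c ε hε
    by_cases hcc : ∃ τ, c ∈ bs (pick τ)
    · obtain ⟨τ, hτ⟩ := hcc
      obtain ⟨K, hK⟩ := exists_nat_one_div_lt hε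
      have hbound : ∀ m, K ≤ m → (1 : ℝ) / ((m : ℝ) + 1) ≤ ε := by
        intro m hm
        refine le_trans ?_ hK.le
        apply one_div_le_one_div_of_le
        · positivity
        · have : (K : ℝ) ≤ m := by exact_mod_cast hm
          linarith
      refine ⟨L τ K, fun δ hδ a ha a' ha' => ?_⟩
      have hmm : ∀ m m', L τ m ≤ δ → δ < L τ (m + 1) → L τ m' ≤ δ → δ < L τ (m' + 1) → m = m' := by
        intro m m' h1 h2 h3 h4
        have h5 : m < m' + 1 := (hLm τ).lt_iff_lt.1 (lt_of_le_of_lt h1 h4)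
        have h6 : m' < m + 1 := (hLm τ).lt_iff_lt.1 (lt_of_le_of_lt h3 h2)
        omega
      have hKm : ∀ m, δ < L τ (m + 1) → K ≤ m := by
        intro m hm
        have := (hLm τ).lt_iff_lt.1 (lt_of_le_of_lt hδ hm)
        omega
      obtain ⟨τ1, m, hm, h1⟩ := ha
      obtain ⟨τ2, m', hm', h2⟩ := ha'
      have ht1 : τ1 = τ := by
        refine huniq _ _ c ?_ hτ
        rcases h1 with ⟨h, _⟩ | ⟨h, _⟩
        · left; rw [h]
        · right; rw [h]; rfl
      have ht2 : τ2 = τ := by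
        refine huniq _ _ c ?_ hτ
        rcases h2 with ⟨h, _⟩ | ⟨h, _⟩
        · left; rw [h]
        · right; rw [h]; rfl
      subst ht1
      subst ht2
      obtain ⟨hMB, hbs, hr1, hr2, hr3, hr4⟩ := he1 τ2 m hm
      obtain ⟨hMB', hbs', hr1', hr2', hr3', hr4'⟩ := he1 τ2 m' hm'
      rcases h1 with ⟨h1, h11, h12⟩ | ⟨h1, h11, h12⟩
      · rcases h2 with ⟨h2, h21, h22⟩ | ⟨h2, h21, h22⟩
        · rw [h1] at h2
          cases h2
        · have hh1 : (e τ2 m).1.1 = a := h11.symm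
          have hh2 : (e τ2 m').2.1 = a' := h21.symm
          rw [hh1, h1] at hr1 hr2
          rw [hh2, h2] at hr3' hr4'
          dsimp only at hr1 hr2 hr3' hr4'
          rw [h12] at hr1 hr2
          rw [h22] at hr3' hr4'
          have := hmm m m' hr1 hr2 hr3' hr4'
          subst this
          obtain ⟨g1, g2, g3, g4, g5⟩ := hMB
          have g6 : hs D (e τ2 m).1 (e τ2 m).2 = hh D a a' := by
            unfold hs
            rw [hh1, hh2, g2, g4, h1, h2]
            simp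
          have g7 : hs D (pick τ2).1 (pick τ2).2 = D.h c := by
            unfold hs
            rw [h1, h2]
            simp [hh_self]
          rw [g6, g7] at g5
          exact g5.trans (hbound m (hKm m hr2))
      · rcases h2 with ⟨h2, h21, h22⟩ | ⟨h2, h21, h22⟩
        · have hh1 : (e τ2 m).2.1 = a := h11.symm
          have hh2 : (e τ2 m').1.1 = a' := h21.symm
          rw [hh1, h1] at hr3 hr4
          rw [hh2, h2] at hr1' hr2'
          dsimp only at hr3 hr4 hr1' hr2'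
          rw [h12] at hr3 hr4
          rw [h22] at hr1' hr2'
          have := hmm m m' hr3 hr4 hr1' hr2'
          subst this
          obtain ⟨g1, g2, g3, g4, g5⟩ := hMB
          have g6 : hs D (e τ2 m).1 (e τ2 m).2 = hh D a a' := by
            unfold hs
            rw [hh1, hh2, g2, g4, h1, h2, hh_comm D a a']
            simp
          have g7 : hs D (pick τ2).1 (pick τ2).2 = D.h c := by
            unfold hs
            rw [h1, h2]
            simp [hh_self]
          rw [g6, g7] at g5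
          exact g5.trans (hbound m (hKm m hr4))
        · rw [h1] at h2
          cases h2
    · refine ⟨0, fun δ _ a ha => ?_⟩
      obtain ⟨τ', m, hm, h1, _⟩ := hG1 c δ false a ha
      exact absurd ⟨τ', h1⟩ hcc
  obtain ⟨N, ℓ, hN, hℓ1, hℓ2⟩ := exists_N D R hRwf G hGf hGR
  have hself : ∀ c i, N c i c = true := fun c i => (hN c i c).2 (Or.inl rfl)
  refine ⟨N, hself, N_loc R hRwf G hGf hGR N ℓ hN,
    N_cnt R hRwf G hGf hGR N ℓ hN, N_cont D R hRwf G N ℓ hN hℓ1 hℓ2 hcond, ?_⟩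
  intro P κ hel
  let i : Task D := ⟨(P, κ), hel⟩
  refine ⟨(pick i).1, (pick i).2, (hpick i).1, fun n hn l => ?_⟩
  obtain ⟨m, hm, hlm, k, hk⟩ := he2 i n hn l
  obtain ⟨⟨g1, g2, g3, g4, g5⟩, hb, -⟩ := he1 i m hm
  have hk' : P n k = e i m := hk.symm
  refine ⟨k, ?_, ?_⟩
  · rw [hk']
    refine ⟨cyl_anti _ hlm g1, g2, ?_⟩
    rw [hN]
    have hne : (e i m).1.1 ≠ (pick i).1.1 := by
      intro h
      exact (hpick i).2.1 _ (Or.inl rfl) (h ▸ hb (Or.inl rfl))
    refine Or.inr ⟨hne, (e i m).1.1, ⟨i, m, hm, Or.inl ⟨rfl, rfl, rfl⟩⟩, hself _ _,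
      self_mem_cyl _ _⟩
  · rw [hk']
    refine ⟨cyl_anti _ hlm g3, g4, ?_⟩
    rw [hN]
    have hne : (e i m).2.1 ≠ (pick i).2.1 := by
      intro h
      exact (hpick i).2.1 _ (Or.inr rfl) (h ▸ hb (Or.inr rfl))
    refine Or.inr ⟨hne, (e i m).2.1, ⟨i, m, hm, Or.inr ⟨rfl, rfl, rfl⟩⟩, hself _ _,
      self_mem_cyl _ _⟩

end H63Fed
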