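import Mathlib
import Pool.Agent.H63Fed.C

/-!
# Fedorcuk's question, part D: the space and the continuity of the special map
-/

set_option autoImplicit false

namespace H63Fed

open Set Filter Topology Cardinal H63Kunen

variable {Q : Type} [MetricSpace Q] (D : HD Q) {N : Om → Bool → Om → Bool}

/-- neighbourhoods in `E` -/
def cE (y : E) (n : ℕ) : Set E := {w | w.1 ∈ cyl y.1 n ∧ w.2 = y.2}

theorem isOpen_cE (y : E) (n : ℕ) : IsOpen (cE y n) := by
  have : cE y n = cyl y.1 n ×ˢ {y.2} := by
    ext w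
    simp [cE]
  rw [this]
  exact (isOpen_cyl _ _).prod (isOpen_discrete _)

theorem isClosed_cE (y : E) (n : ℕ) : IsClosed (cE y n) := by
  have : cE y n = cyl y.1 n ×ˢ {y.2} := by
    ext w
    simp [cE]
  rw [this]
  exact (isClosed_cyl _ _).prod (isClosed_discrete _)

theorem self_mem_cE (y : E) (n : ℕ) : y ∈ cE y n := ⟨self_mem_cyl _ _, rfl⟩

theorem cE_anti (y : E) {m n : ℕ} (h : m ≤ n) : cE y n ⊆ cE y m :=
  fun _ hw => ⟨cyl_anti _ h hw.1, hw.2⟩

theorem nhds_cE (y : E) : (𝓝 y).HasBasis (fun _ : ℕ => True) (cE y) := by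
  refine basis_aux (cE y) (fun m n h => cE_anti y h) _
    (fun n => (isOpen_cE y n).mem_nhds (self_mem_cE y n)) ?_
  have : Tendsto id (⨅ n, 𝓟 (cE y n)) (𝓝 y) := by
    rw [show y = (y.1, y.2) from rfl, nhds_prod_eq]
    refine Tendsto.prodMk ?_ ?_
    · rw [tendsto_pi_nhds]
      intro i
      rw [nhds_discrete, tendsto_pure]
      exact ev_aux _ _ (i + 1) fun w hw => hw.1 i (Nat.lt_succ_self i)
    · rw [nhds_discrete, tendsto_pure]
      exact ev_aux _ _ 0 fun w hw => hw.2
  exact this

/-- the space `X` -/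
@[ext] structure XS (N : Om → Bool → Om → Bool) : Type where
  pt : E

def emb (N : Om → Bool → Om → Bool) (x : XS N) : E × (E → Bool) :=
  (x.pt, fun p => decide (p.2 = x.pt.2) && N p.1 p.2 x.pt.1)

instance (N : Om → Bool → Om → Bool) : TopologicalSpace (XS N) :=
  TopologicalSpace.induced (emb N) inferInstance

theorem continuous_emb : Continuous (emb N) := continuous_induced_dom

theorem continuous_pt : Continuous (XS.pt : XS N → E) :=
  continuous_fst.comp continuous_emb

/-- basic neighbourhoods in `X` -/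
def BX (x : XS N) (l : ℕ) : Set (XS N) := {w | w.pt ∈ BE N x.pt l}

theorem isClopen_BX (x : XS N) (l : ℕ) : IsClopen (BX x l) := by
  have h : BX x l = XS.pt ⁻¹' (cE x.pt l) ∩
      (fun w : XS N => decide (x.pt.2 = w.pt.2) && N x.pt.1 x.pt.2 w.pt.1) ⁻¹' {true} := by
    ext w
    simp only [BX, BE, cE, mem_ofPred_eq, mem_inter_iff, mem_preimage, mem_singleton_iff,
      Bool.and_eq_true, decide_eq_true_iff]
    constructor
    · rintro ⟨h1, h2, h3⟩
      exact ⟨⟨h1, h2⟩, h2.symm, h3⟩
    · rintro ⟨⟨h1, h2⟩, h3, h4⟩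
      exact ⟨h1, h2, h4⟩
  have hc : Continuous (fun w : XS N => decide (x.pt.2 = w.pt.2) && N x.pt.1 x.pt.2 w.pt.1) :=
    (continuous_apply x.pt).comp (continuous_snd.comp continuous_emb)
  rw [h]
  exact ⟨((isClosed_cE _ _).preimage continuous_pt).inter ((isClosed_discrete _).preimage hc),
    ((isOpen_cE _ _).preimage continuous_pt).inter ((isOpen_discrete _).preimage hc)⟩

variable {D}

theorem self_mem_BX (hN : Good D N) (x : XS N) (l : ℕ) : x ∈ BX x l :=
  ⟨self_mem_cyl _ _, rfl, hN.self _ _⟩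

theorem BX_anti (x : XS N) {m n : ℕ} (h : m ≤ n) : BX x n ⊆ BX x m :=
  fun _ hw => ⟨cyl_anti _ h hw.1, hw.2⟩

theorem nhds_X (hN : Good D N) (x : XS N) : (𝓝 x).HasBasis (fun _ : ℕ => True) (BX x) := by
  refine basis_aux (BX x) (fun m n h => BX_anti x h) _
    (fun n => (isClopen_BX x n).isOpen.mem_nhds (self_mem_BX hN x n)) ?_
  have : Tendsto (emb N) (⨅ n, 𝓟 (BX x n)) (𝓝 (emb N x)) := by
    rw [show emb N x = ((emb N x).1, (emb N x).2) from rfl, nhds_prod_eq]
    have h1 : Tendsto (fun w : XS N => (emb N w).1) (⨅ n, 𝓟 (BX x n))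
        (𝓝 ((emb N x).1)) := by
      rw [(nhds_cE _).tendsto_right_iff]
      intro n _
      exact ev_aux _ _ n fun w hw => ⟨hw.1, hw.2.1⟩
    have h2 : Tendsto (fun w : XS N => (emb N w).2) (⨅ n, 𝓟 (BX x n))
        (𝓝 ((emb N x).2)) := by
      rw [tendsto_pi_nhds]
      intro p
      rw [nhds_discrete, tendsto_pure]
      obtain ⟨n, b, h⟩ := hN.loc p.1 x.pt.1 p.2
      refine ev_aux _ _ n fun w hw => ?_
      change (decide (p.2 = w.pt.2) && N p.1 p.2 w.pt.1) =
        (decide (p.2 = x.pt.2) && N p.1 p.2 x.pt.1)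
      rw [hw.2.1]
      by_cases hp : p.2 = x.pt.2
      · rw [h _ hw.1, h _ (self_mem_cyl _ _), hp, hw.2.2, hN.self]
      · simp [hp]
    exact Tendsto.prodMk h1 h2
  rw [nhds_induced]
  exact this.le_comap

instance : T2Space (XS N) := by
  refine T2Space.of_injective_continuous (f := emb N) ?_ continuous_emb
  intro a b h
  exact XS.ext (congrArg Prod.fst h)

theorem compact_BX (hN : Good D N) (x : XS N) : IsCompact (BX x 0) := by
  refine isCompact_iff_ultrafilter_le_nhds.2 fun U hU => ?_
  have hU' : BX x 0 ∈ (U : Filter (XS N)) := by simpa using hU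
  obtain ⟨z, -, hz⟩ := isCompact_iff_ultrafilter_le_nhds.1 (isCompact_univ (X := E))
    (U.map XS.pt) (by simp)
  have h1 : ∀ l, {w : XS N | w.pt ∈ cE z l} ∈ (U : Filter (XS N)) := fun l =>
    hz ((nhds_cE z).mem_of_mem (i := l) trivial)
  obtain ⟨n, b, hb⟩ := hN.loc x.pt.1 z.1 x.pt.2
  obtain ⟨w, hw1, hw2⟩ := U.nonempty_of_mem (inter_mem hU' (h1 n))
  have hzx : z.2 = x.pt.2 := by
    rw [← hw1.2.1, ← hw2.2]
  have hb1 : b = true := by
    have := hb _ hw2.1
    rw [hw1.2.2] at this
    cases b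
    · simp at this
    · rfl
  subst hb1
  refine ⟨⟨z⟩, ?_, ?_⟩
  · refine ⟨fun i hi => absurd hi (Nat.not_lt_zero i), hzx, ?_⟩
    change N x.pt.1 x.pt.2 z.1 = true
    rw [hb z.1 (self_mem_cyl _ _), hN.self]
    rfl
  · rw [(nhds_X hN _).ge_iff]
    intro l _
    filter_upwards [h1 l, h1 n, hU'] with w hw hw' hw''
    refine ⟨hw.1, hw.2, ?_⟩
    change N z.1 z.2 w.pt.1 = true
    have := hb _ hw'.1
    rw [hw''.2.2] at this
    rw [hzx]
    simpa using this.symm

theorem countable_BX (hN : Good D N) (x : XS N) (l : ℕ) : (BX x l).Countable := by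
  have h1 : (XS.pt '' (BX x l)).Countable := by
    have hsub : XS.pt '' (BX x l) ⊆ (fun w : Om => (w, x.pt.2)) '' {w | N x.pt.1 x.pt.2 w = true} := by
      rintro _ ⟨w, hw, rfl⟩
      exact ⟨w.pt.1, hw.2.2, by rw [← hw.2.1]⟩
    exact ((hN.cnt _ _).image _).mono hsub
  exact countable_of_injective_of_countable_image (fun a _ b _ h => XS.ext h) h1

/-- the special map on `X × X` -/
noncomputable def muX (D : HD Q) (p : XS N × XS N) : E × E × Q := mu D p.1.pt p.2.pt

theorem continuous_muX (hN : Good D N) : Continuous (muX (N := N) D) := by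
  have h1 : Continuous (fun p : XS N × XS N => hs D p.1.pt p.2.pt) := by
    rw [continuous_iff_continuousAt]
    rintro ⟨y, z⟩
    unfold ContinuousAt
    rw [Metric.tendsto_nhds]
    intro ε hε
    have hev : ∀ n, ∀ᶠ p : XS N × XS N in 𝓝 (y, z), p.1 ∈ BX y n ∧ p.2 ∈ BX z n := by
      intro n
      exact ((nhds_X hN y).prod_nhds (nhds_X hN z)).mem_of_mem (i := (n, n)) ⟨trivial, trivial⟩
    by_cases h2 : y.pt.2 = z.pt.2
    · filter_upwards [hev 0] with p hp
      have : hs D p.1.pt p.2.pt = hs D y.pt z.pt := by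
        unfold hs
        rw [hp.1.2.1, hp.2.2.1, if_pos h2, if_pos h2]
      rw [this, dist_self]
      exact hε
    · by_cases h3 : y.pt.1 = z.pt.1
      · obtain ⟨n, hn⟩ := hN.cont y.pt.1 (ε / 2) (by linarith)
        filter_upwards [hev n] with p hp
        have e1 : hs D y.pt z.pt = D.h y.pt.1 := by
          unfold hs
          rw [if_neg h2, ← h3, hh_self]
        have e2 : hs D p.1.pt p.2.pt = hh D p.1.pt.1 p.2.pt.1 := by
          unfold hs
          rw [hp.1.2.1, hp.2.2.1, if_neg h2]
        rw [e1, e2]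
        cases hy : y.pt.2 with
        | false =>
          have hz : z.pt.2 = true := by
            cases hz : z.pt.2 with
            | false => exact absurd (hy.trans hz.symm) h2
            | true => rfl
          have g1 := hp.1.2.2
          have g2 := hp.2.2.2
          rw [hy] at g1
          rw [hz, ← h3] at g2
          have g3 := hp.2.1
          rw [← h3] at g3
          have := hn p.1.pt.1 p.2.pt.1 g1 hp.1.1 g2 g3
          linarith
        | true =>
          have hz : z.pt.2 = false := by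
            cases hz : z.pt.2 with
            | true => exact absurd (hy.trans hz.symm) h2
            | false => rfl
          have g1 := hp.1.2.2
          have g2 := hp.2.2.2
          rw [hy] at g1
          rw [hz, ← h3] at g2
          have g3 := hp.2.1
          rw [← h3] at g3
          have := hn p.2.pt.1 p.1.pt.1 g2 g3 g1 hp.1.1
          rw [hh_comm]
          linarith
      · filter_upwards [hev (fd y.pt.1 z.pt.1 + 1)] with p hp
        have : hs D p.1.pt p.2.pt = hs D y.pt z.pt := by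
          unfold hs
          rw [hp.1.2.1, hp.2.2.1, if_neg h2, if_neg h2]
          exact (hh_loc D h3 (Nat.lt_succ_self _) hp.1.1 hp.2.1).2.2
        rw [this, dist_self]
        exact hε
  exact (continuous_pt.comp continuous_fst).prodMk
    ((continuous_pt.comp continuous_snd).prodMk h1)

end H63Fed
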