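import Mathlib
import Pool.Agent.H63Fed.A

/-!
# Fedorcuk's question, part L: closed and Borel sets covered by few lines
-/

set_option autoImplicit false

namespace H63Fed

open Set Filter Topology Cardinal H63Kunen

/-- covered by countably many lines -/
def Thin (S : Set (Om × Om)) : Prop := ∃ M : Set Om, M.Countable ∧ ∀ p ∈ S, p.1 ∈ M ∨ p.2 ∈ M

theorem Thin.mono {S T : Set (Om × Om)} (h : Thin T) (hST : S ⊆ T) : Thin S := by
  obtain ⟨M, hM, h⟩ := h
  exact ⟨M, hM, fun p hp => h p (hST hp)⟩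

theorem Thin.biUnion {ι : Type} {I : Set ι} (hI : I.Countable) {S : ι → Set (Om × Om)}
    (h : ∀ i ∈ I, Thin (S i)) : Thin (⋃ i ∈ I, S i) := by
  choose! M hM1 hM2 using h
  refine ⟨⋃ i ∈ I, M i, hI.biUnion hM1, fun p hp => ?_⟩
  simp only [mem_iUnion] at hp ⊢
  obtain ⟨i, hi, hp⟩ := hp
  rcases hM2 i hi p hp with h | h
  · exact Or.inl ⟨i, hi, h⟩
  · exact Or.inr ⟨i, hi, h⟩

theorem Thin.union {S T : Set (Om × Om)} (hS : Thin S) (hT : Thin T) : Thin (S ∪ T) := by
  obtain ⟨M, hM, h⟩ := hS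
  obtain ⟨M', hM', h'⟩ := hT
  refine ⟨M ∪ M', hM.union hM', ?_⟩
  rintro p (hp | hp)
  · rcases h p hp with h | h
    · exact Or.inl (Or.inl h)
    · exact Or.inr (Or.inl h)
  · rcases h' p hp with h | h
    · exact Or.inl (Or.inr h)
    · exact Or.inr (Or.inr h)

def c2 (p : Om × Om) (n : ℕ) : Set (Om × Om) := cyl p.1 n ×ˢ cyl p.2 n

theorem isClosed_c2 (p : Om × Om) (n : ℕ) : IsClosed (c2 p n) :=
  (isClosed_cyl _ _).prod (isClosed_cyl _ _)

theorem isOpen_c2 (p : Om × Om) (n : ℕ) : IsOpen (c2 p n) :=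
  (isOpen_cyl _ _).prod (isOpen_cyl _ _)

theorem self_mem_c2 (p : Om × Om) (n : ℕ) : p ∈ c2 p n := ⟨self_mem_cyl _ _, self_mem_cyl _ _⟩

theorem c2_anti (p : Om × Om) {m n : ℕ} (h : m ≤ n) : c2 p n ⊆ c2 p m :=
  fun _ hq => ⟨cyl_anti _ h hq.1, cyl_anti _ h hq.2⟩

theorem c2_sub {p q : Om × Om} {n : ℕ} (h : q ∈ c2 p n) {m : ℕ} (hm : n ≤ m) : c2 q m ⊆ c2 p n := by
  intro r hr
  exact ⟨cyl_trans h.1 (cyl_anti _ hm hr.1), cyl_trans h.2 (cyl_anti _ hm hr.2)⟩

/-- perfect for the ideal of thin sets -/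
def Fat (C : Set (Om × Om)) : Prop := IsClosed C ∧ C.Nonempty ∧ ∀ p ∈ C, ∀ n, ¬ Thin (C ∩ c2 p n)

theorem exists_fat (K : Set (Om × Om)) (hK : IsClosed K) (hT : ¬ Thin K) :
    ∃ C, C ⊆ K ∧ Fat C := by
  classical
  let C : Set (Om × Om) := {p | p ∈ K ∧ ∀ n, ¬ Thin (K ∩ c2 p n)}
  have hrest : Thin (K \ C) := by
    have h1 : ∀ p ∈ K \ C, ∃ n, Thin (K ∩ c2 p n) := by
      rintro p ⟨hp, hpC⟩
      by_contra hcon
      push Not at hcon
      exact hpC ⟨hp, hcon⟩
    choose! n hn using h1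
    obtain ⟨T, hTs, hTc, hT⟩ := TopologicalSpace.countable_cover_nhdsWithin
      (f := fun p => c2 p (n p)) (s := K \ C) (fun p _ =>
        mem_nhdsWithin_of_mem_nhds ((isOpen_c2 _ _).mem_nhds (self_mem_c2 _ _)))
    refine (Thin.biUnion hTc (S := fun p => K ∩ c2 p (n p)) fun p hp => hn p (hTs hp)).mono ?_
    intro q hq
    have := hT hq
    simp only [mem_iUnion] at this ⊢
    obtain ⟨p, hp, h⟩ := this
    exact ⟨p, hp, hq.1, h⟩
  have hCK : C ⊆ K := fun p hp => hp.1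
  have hfat : ∀ p ∈ C, ∀ n, ¬ Thin (C ∩ c2 p n) := by
    intro p hp n h
    apply hp.2 n
    refine (h.union hrest).mono ?_
    rintro q ⟨hq1, hq2⟩
    by_cases hqC : q ∈ C
    · exact Or.inl ⟨hqC, hq2⟩
    · exact Or.inr ⟨hq1, hqC⟩
  refine ⟨C, hCK, ?_, ?_, hfat⟩
  · rw [← isOpen_compl_iff, isOpen_iff_mem_nhds]
    intro p hp
    by_cases hpK : p ∈ K
    · have : ∃ n, Thin (K ∩ c2 p n) := by
        by_contra hcon
        push Not at hcon
        exact hp ⟨hpK, hcon⟩
      obtain ⟨n, hn⟩ := this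
      filter_upwards [(isOpen_c2 p n).mem_nhds (self_mem_c2 p n)] with q hq hqC
      exact hqC.2 n (hn.mono (inter_subset_inter_right _ (c2_sub hq le_rfl)))
    · filter_upwards [hK.isOpen_compl.mem_nhds hpK] with q hq hqC
      exact hq hqC.1
  · rw [Set.nonempty_iff_ne_empty]
    intro h
    apply hT
    rw [h, sdiff_empty] at hrest
    exact hrest

theorem split_fat (C : Set (Om × Om)) (hC : Fat C) : ∃ C0 C1 : Set (Om × Om), Fat C0 ∧ Fat C1 ∧
    C0 ⊆ C ∧ C1 ⊆ C ∧ ∀ p ∈ C0, ∀ q ∈ C1, p.1 ≠ q.1 ∧ p.2 ≠ q.2 := by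
  obtain ⟨hcl, ⟨p, hp⟩, hf⟩ := hC
  have h1 : ∃ q ∈ C, q.1 ≠ p.1 ∧ q.2 ≠ p.2 := by
    by_contra hcon
    push Not at hcon
    apply hf p hp 0
    refine ⟨{p.1, p.2}, (Set.toFinite _).countable, ?_⟩
    rintro q ⟨hq, -⟩
    by_cases h : q.1 = p.1
    · exact Or.inl (Or.inl h)
    · exact Or.inr (Or.inr (hcon q hq h))
  obtain ⟨q, hq, hq1, hq2⟩ := h1
  have hfat : ∀ r ∈ C, ∀ n, Fat (C ∩ c2 r n) := by
    intro r hr n
    refine ⟨hcl.inter (isClosed_c2 _ _), ⟨r, hr, self_mem_c2 _ _⟩, ?_⟩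
    rintro s ⟨hs, hs'⟩ m h
    apply hf s hs (max n m)
    refine h.mono ?_
    rintro t ⟨ht, ht'⟩
    exact ⟨⟨ht, c2_sub hs' (le_max_left _ _) ht'⟩, c2_anti _ (le_max_right _ _) ht'⟩
  refine ⟨C ∩ c2 p (max (fd p.1 q.1) (fd p.2 q.2) + 1), C ∩ c2 q (max (fd p.1 q.1) (fd p.2 q.2) + 1),
    hfat p hp _, hfat q hq _, inter_subset_left, inter_subset_left, ?_⟩
  rintro s ⟨_, hs1, hs2⟩ t ⟨_, ht1, ht2⟩
  constructor
  · intro h
    have h3 := hs1 (fd p.1 q.1) (lt_of_le_of_lt (le_max_left _ _) (Nat.lt_succ_self _))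
    have h4 := ht1 (fd p.1 q.1) (lt_of_le_of_lt (le_max_left _ _) (Nat.lt_succ_self _))
    exact fd_spec (Ne.symm hq1) (by rw [← h3, ← h4, h])
  · intro h
    have h3 := hs2 (fd p.2 q.2) (lt_of_le_of_lt (le_max_right _ _) (Nat.lt_succ_self _))
    have h4 := ht2 (fd p.2 q.2) (lt_of_le_of_lt (le_max_right _ _) (Nat.lt_succ_self _))
    exact fd_spec (Ne.symm hq2) (by rw [← h3, ← h4, h])

theorem lines (K : Set (Om × Om)) (hK : IsClosed K) (F : Set Om) (hF : #F < continuum)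
    (hKF : ∀ p ∈ K, p.1 ∈ F ∨ p.2 ∈ F) : Thin K := by
  classical
  by_contra hT
  obtain ⟨C, hCK, hC⟩ := exists_fat K hK hT
  choose! f0 f1 h0 h1 hs0 hs1 hd using split_fat
  let S : Om → ℕ → Set (Om × Om) := fun x n =>
    Nat.rec C (fun n ih => if x n = true then f1 ih else f0 ih) n
  have hS0 : ∀ x, S x 0 = C := fun x => rfl
  have hS : ∀ x n, S x (n + 1) = if x n = true then f1 (S x n) else f0 (S x n) := fun x n => rfl
  have hfat : ∀ x n, Fat (S x n) := by
    intro x n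
    induction n with
    | zero => exact hC
    | succ n ih =>
      rw [hS]
      split_ifs
      · exact h1 _ ih
      · exact h0 _ ih
  have hsub : ∀ x n, S x (n + 1) ⊆ S x n := by
    intro x n
    rw [hS]
    split_ifs
    · exact hs1 _ (hfat x n)
    · exact hs0 _ (hfat x n)
  have hag : ∀ x y n, (∀ i, i < n → x i = y i) → S x n = S y n := by
    intro x y n
    induction n with
    | zero => intro _; rfl
    | succ n ih =>
      intro h
      rw [hS, hS, h n (Nat.lt_succ_self n), ih fun i hi => h i (hi.trans (Nat.lt_succ_self n))]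
  have hpt : ∀ x, (⋂ n, S x n).Nonempty := by
    intro x
    exact IsCompact.nonempty_iInter_of_sequence_nonempty_isCompact_isClosed (fun n => S x n)
      (hsub x) (fun n => (hfat x n).2.1) hC.1.isCompact (fun n => (hfat x n).1)
  choose g hg using hpt
  have hgn : ∀ x n, g x ∈ S x n := fun x n => mem_iInter.1 (hg x) n
  have hinj : ∀ x y, x ≠ y → (g x).1 ≠ (g y).1 ∧ (g x).2 ≠ (g y).2 := by
    intro x y hxy
    have e1 := hgn x (fd x y + 1)
    have e2 := hgn y (fd x y + 1)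
    have e3 : S x (fd x y) = S y (fd x y) := hag x y _ fun i hi => eq_of_lt_fd hi
    have e4 := fd_spec hxy
    rw [hS] at e1 e2
    rw [← e3] at e2
    cases hx : x (fd x y) with
    | true =>
      have hy : y (fd x y) = false := by
        cases hy : y (fd x y) with
        | false => rfl
        | true => exact absurd (hx.trans hy.symm) e4
      rw [hx] at e1
      rw [hy] at e2
      simp only [if_true] at e1
      simp only [Bool.false_eq_true, if_false] at e2
      have := hd _ (hfat x (fd x y)) _ e2 _ e1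
      exact ⟨this.1.symm, this.2.symm⟩
    | false =>
      have hy : y (fd x y) = true := by
        cases hy : y (fd x y) with
        | true => rfl
        | false => exact absurd (hx.trans hy.symm) e4
      rw [hx] at e1
      rw [hy] at e2
      simp only [if_true] at e2
      simp only [Bool.false_eq_true, if_false] at e1
      exact hd _ (hfat x (fd x y)) _ e1 _ e2
  have hgF : ∀ x, (g x).1 ∈ F ∨ (g x).2 ∈ F := fun x => hKF _ (hCK (hgn x 0))
  let Φ : Om → F ⊕ F := fun x => if h : (g x).1 ∈ F then Sum.inl ⟨_, h⟩ else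
    Sum.inr ⟨(g x).2, (hgF x).resolve_left h⟩
  have hΦ : Function.Injective Φ := by
    intro x y hxy
    by_contra hne
    obtain ⟨n1, n2⟩ := hinj x y hne
    simp only [Φ] at hxy
    by_cases hx : (g x).1 ∈ F
    · by_cases hy : (g y).1 ∈ F
      · rw [dif_pos hx, dif_pos hy] at hxy
        exact n1 (congrArg Subtype.val (Sum.inl.inj hxy))
      · rw [dif_pos hx, dif_neg hy] at hxy
        cases hxy
    · by_cases hy : (g y).1 ∈ F
      · rw [dif_neg hx, dif_pos hy] at hxy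
        cases hxy
      · rw [dif_neg hx, dif_neg hy] at hxy
        exact n2 (congrArg Subtype.val (Sum.inr.inj hxy))
  have hle : #Om ≤ #(F ⊕ F) := mk_le_of_injective hΦ
  rw [mk_Om, mk_sum, lift_id] at hle
  exact absurd hle (not_le.2 (add_lt_of_lt aleph0_le_continuum hF hF))

/-- small Borel sets are countable -/
theorem borel_small (S : Set Om) (hS : MeasurableSet S) (F : Set Om) (hF : #F < continuum)
    (hSF : S ⊆ F) : S.Countable := by
  by_contra hu
  have hpol : PolishSpace Om := by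
    let _ := TopologicalSpace.metrizableSpaceMetric Om
    infer_instance
  obtain ⟨t', ht1, ht2, ht3, ht4⟩ := hS.isClopenable
  obtain ⟨f, hf, -, hinj⟩ := @IsClosed.exists_nat_bool_injection_of_not_countable Om t' ht2 S ht3 hu
  have h1 : #Om ≤ #F := by
    refine mk_le_of_injective (f := fun x : Om => (⟨f x, hSF (hf ⟨x, rfl⟩)⟩ : F)) ?_
    intro a b h
    exact hinj (congrArg Subtype.val h)
  rw [mk_Om] at h1
  exact absurd h1 (not_le.2 hF)

end H63Fed
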