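import Mathlib
import Pool.Agent.H63Fed.D
import Pool.Agent.H63Fed.L

/-!
# Fedorcuk's question, part F: the bad sets are small
-/

set_option autoImplicit false

namespace H63Fed

open Set Filter Topology Cardinal H63Kunen

variable {Q : Type} [MetricSpace Q] [CompactSpace Q] {D : HD Q} {N : Om → Bool → Om → Bool}

theorem dense_seq {T W : Type} [TopologicalSpace W] [SecondCountableTopology W] (S : Set T)
    (hS : S.Nonempty) (f : T → W) :
    ∃ u : ℕ → T, (∀ k, u k ∈ S) ∧ f '' S ⊆ closure (range fun k => f (u k)) := by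
  classical
  have : Nonempty (f '' S) := (hS.image f).to_subtype
  obtain ⟨v, hv⟩ := TopologicalSpace.exists_dense_seq (f '' S)
  have hv' : ∀ k, ∃ t ∈ S, f t = (v k : W) := fun k => (v k).2
  choose u hu1 hu2 using hv'
  refine ⟨u, hu1, ?_⟩
  intro w hw
  rw [mem_closure_iff]
  intro U hU hwU
  obtain ⟨k, hk⟩ := hv.exists_mem_open (hU.preimage continuous_subtype_val) ⟨⟨w, hw⟩, hwU⟩
  refine ⟨f (u k), ?_, k, rfl⟩
  rw [hu2]
  exact hk

theorem closXX (hN : Good D N) (A : Set (XS N × XS N)) (y z : XS N) :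
    (y, z) ∈ closure A ↔ ∀ l, ∃ p ∈ A, p.1 ∈ BX y l ∧ p.2 ∈ BX z l := by
  rw [mem_closure_iff_nhds_basis ((nhds_X hN y).prod_nhds (nhds_X hN z))]
  constructor
  · intro h l
    obtain ⟨p, hp, hq⟩ := h (l, l) ⟨trivial, trivial⟩
    exact ⟨p, hp, hq.1, hq.2⟩
  · rintro h ⟨l, l'⟩ -
    obtain ⟨p, hp, h1, h2⟩ := h (max l l')
    exact ⟨p, hp, BX_anti _ (le_max_left _ _) h1, BX_anti _ (le_max_right _ _) h2⟩

def j1 (p : XS N × XS N) : XS N × E := (p.1, p.2.pt)

theorem continuous_j1 : Continuous (j1 : XS N × XS N → XS N × E) :=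
  continuous_fst.prodMk (continuous_pt.comp continuous_snd)

theorem closXE (hN : Good D N) (A : Set (XS N × XS N)) (y : XS N) (z : E) :
    (y, z) ∈ closure (j1 '' A) ↔ ∀ l, ∃ p ∈ A, p.1 ∈ BX y l ∧ p.2.pt ∈ cE z l := by
  rw [mem_closure_iff_nhds_basis ((nhds_X hN y).prod_nhds (nhds_cE z))]
  constructor
  · intro h l
    obtain ⟨q, ⟨p, hp, rfl⟩, hq⟩ := h (l, l) ⟨trivial, trivial⟩
    exact ⟨p, hp, hq.1, hq.2⟩
  · rintro h ⟨l, l'⟩ -
    obtain ⟨p, hp, h1, h2⟩ := h (max l l')
    exact ⟨j1 p, ⟨p, hp, rfl⟩, BX_anti _ (le_max_left _ _) h1, cE_anti _ (le_max_right _ _) h2⟩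

theorem lt_cont_empty : #(∅ : Set Om) < continuum := by
  rw [mk_eq_zero]
  exact lt_of_lt_of_le aleph0_pos aleph0_le_continuum

/-- the bad set is covered by few lines -/
theorem bad_small (hN : Good D N) (A B : Set (XS N × XS N)) (hA : IsClosed A) (hB : IsClosed B)
    (hd : Disjoint A B) : ∃ F : Set Om, #F < continuum ∧ ∀ y z : E,
      mu D y z ∈ closure (muX D '' A) ∩ closure (muX D '' B) → y.1 ∈ F ∨ z.1 ∈ F := by
  classical
  by_contra hcon
  push Not at hcon
  set T := closure (muX D '' A) ∩ closure (muX D '' B) with hT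
  obtain ⟨y0, z0, hyz, -⟩ := hcon ∅ lt_cont_empty
  have hTne : {p : E × E | mu D p.1 p.2 ∈ T}.Nonempty := ⟨(y0, z0), hyz⟩
  have hAne : A.Nonempty := by
    by_contra h
    rw [Set.not_nonempty_iff_eq_empty] at h
    have := hyz.1
    rw [h] at this
    simp at this
  have hBne : B.Nonempty := by
    by_contra h
    rw [Set.not_nonempty_iff_eq_empty] at h
    have := hyz.2
    rw [h] at this
    simp at this
  obtain ⟨u, hu1, hu2⟩ := dense_seq A hAne (muX D)
  obtain ⟨v, hv1, hv2⟩ := dense_seq B hBne (muX D)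
  obtain ⟨w, hw1, hw2⟩ := dense_seq {p : E × E | mu D p.1 p.2 ∈ T} hTne (fun p => mu D p.1 p.2)
  have hTc : IsClosed T := isClosed_closure.inter isClosed_closure
  obtain ⟨y, z, h1, h2⟩ := hN.hG
    (fun n k => if n = 0 then ((u k).1.pt, (u k).2.pt) else ((v k).1.pt, (v k).2.pt))
    (fun k => mu D (w k).1 (w k).2) (by
      intro F hF
      obtain ⟨y, z, h1, h2, h3⟩ := hcon F hF
      exact ⟨y, z, h2, h3, hw2 ⟨(y, z), h1, rfl⟩⟩)
  have h3 : mu D y z ∈ T := by
    have : closure (range fun k => mu D (w k).1 (w k).2) ⊆ T :=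
      closure_minimal (by rintro _ ⟨k, rfl⟩; exact hw1 k) hTc
    exact this h1
  have hmA : ((⟨y⟩, ⟨z⟩) : XS N × XS N) ∈ closure A := by
    rw [closXX hN]
    intro l
    obtain ⟨k, hk1, hk2⟩ := h2 0 (by
      have : closure (muX D '' A) ⊆ closure (range fun k => muX D (u k)) :=
        closure_minimal hu2 isClosed_closure
      simpa [muX] using this h3.1) l
    simp only [if_true] at hk1 hk2
    exact ⟨u k, hu1 k, hk1, hk2⟩
  have hmB : ((⟨y⟩, ⟨z⟩) : XS N × XS N) ∈ closure B := by
    rw [closXX hN]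
    intro l
    obtain ⟨k, hk1, hk2⟩ := h2 1 (by
      have : closure (muX D '' B) ⊆ closure (range fun k => muX D (v k)) :=
        closure_minimal hv2 isClosed_closure
      simpa [muX] using this h3.2) l
    simp only [one_ne_zero, if_false] at hk1 hk2
    exact ⟨v k, hv1 k, hk1, hk2⟩
  rw [hA.closure_eq] at hmA
  rw [hB.closure_eq] at hmB
  exact Set.disjoint_left.1 hd hmA hmB

theorem measurable_h (D : HD Q) : @Measurable Om Q _ (borel Q) D.h := by
  letI : MeasurableSpace Q := borel Q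
  haveI : BorelSpace Q := ⟨rfl⟩
  refine measurable_of_tendsto_metrizable (f := fun n c => D.rr c n) (fun n => ?_) ?_
  · have : Continuous (fun c => D.rr c n) := by
      rw [continuous_iff_continuousAt]
      intro c
      have : (fun c => D.rr c n) =ᶠ[𝓝 c] fun _ => D.rr c n := by
        filter_upwards [(isOpen_cyl c n).mem_nhds (self_mem_cyl c n)] with c' hc'
        exact D.loc _ _ _ hc'
      exact this.continuousAt
    exact this.measurable
  · rw [tendsto_pi_nhds]
    exact D.lim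

theorem bad_thin (T : Set (E × E × Q)) (hT : IsClosed T) (F : Set Om) (hF : #F < continuum)
    (h : ∀ y z : E, mu D y z ∈ T → y.1 ∈ F ∨ z.1 ∈ F) :
    ∃ M : Set Om, M.Countable ∧ ∀ y z : E, mu D y z ∈ T → y.1 ∈ M ∨ z.1 ∈ M := by
  classical
  have key : ∀ i j : Bool, Thin {p : Om × Om | mu D (p.1, i) (p.2, j) ∈ T} := by
    intro i j
    have hdiag : {c : Om | mu D (c, i) (c, j) ∈ T}.Countable := by
      refine borel_small _ ?_ F hF ?_
      · letI : MeasurableSpace Q := borel Q
        haveI : BorelSpace Q := ⟨rfl⟩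
        have hT' : IsClosed {p : Om × Q | (((p.1, i), (p.1, j), p.2) : E × E × Q) ∈ T} :=
          hT.preimage (by fun_prop)
        have hg : Measurable (fun c : Om => (c, if i = j then D.q0 else D.h c)) := by
          refine measurable_id.prodMk ?_
          by_cases hij : i = j
          · simp only [hij, if_true]
            exact measurable_const
          · simp only [hij, if_false]
            exact measurable_h D
        have := hg hT'.measurableSet
        convert this using 1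
        ext c
        simp only [mem_ofPred_eq, mem_preimage, mu, hs, hh_self]
      · intro c hc
        rcases h _ _ hc with h' | h'
        · exact h'
        · exact h'
    have hoff : Thin {p : Om × Om | p.1 ≠ p.2 ∧ mu D (p.1, i) (p.2, j) ∈ T} := by
      obtain ⟨S, hSs, hSc, hS⟩ := TopologicalSpace.countable_cover_nhdsWithin
        (f := fun p : Om × Om => c2 p (fd p.1 p.2 + 1))
        (s := {p : Om × Om | p.1 ≠ p.2 ∧ mu D (p.1, i) (p.2, j) ∈ T}) (fun p _ =>
          mem_nhdsWithin_of_mem_nhds ((isOpen_c2 _ _).mem_nhds (self_mem_c2 _ _)))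
      refine (Thin.biUnion hSc
        (S := fun p => {q : Om × Om | mu D (q.1, i) (q.2, j) ∈ T} ∩ c2 p (fd p.1 p.2 + 1)) ?_).mono ?_
      · intro p hp
        have hne := (hSs hp).1
        refine lines _ ?_ F hF ?_
        · have : {q : Om × Om | mu D (q.1, i) (q.2, j) ∈ T} ∩ c2 p (fd p.1 p.2 + 1) =
              {q : Om × Om | (((q.1, i), (q.2, j), if i = j then D.q0 else hh D p.1 p.2) :
                E × E × Q) ∈ T} ∩ c2 p (fd p.1 p.2 + 1) := by
            ext q
            simp only [mem_inter_iff, mem_ofPred_eq, mu, hs]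
            constructor
            · rintro ⟨h1, h2⟩
              rw [(hh_loc D hne (Nat.lt_succ_self _) h2.1 h2.2).2.2] at h1
              exact ⟨h1, h2⟩
            · rintro ⟨h1, h2⟩
              rw [(hh_loc D hne (Nat.lt_succ_self _) h2.1 h2.2).2.2]
              exact ⟨h1, h2⟩
          rw [this]
          exact (hT.preimage (by fun_prop)).inter (isClosed_c2 _ _)
        · rintro q ⟨hq, -⟩
          exact h _ _ hq
      · intro q hq
        have := hS hq
        simp only [mem_iUnion] at this ⊢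
        obtain ⟨p, hp, h⟩ := this
        exact ⟨p, hp, hq.2, h⟩
    obtain ⟨M, hM1, hM2⟩ := hoff
    refine ⟨M ∪ {c : Om | mu D (c, i) (c, j) ∈ T}, hM1.union hdiag, ?_⟩
    rintro ⟨b, c⟩ hp
    by_cases hbc : b = c
    · subst hbc
      exact Or.inl (Or.inr hp)
    · rcases hM2 (b, c) ⟨hbc, hp⟩ with h' | h'
      · exact Or.inl (Or.inl h')
      · exact Or.inr (Or.inl h')
  choose M hM1 hM2 using key
  refine ⟨⋃ i, ⋃ j, M i j, countable_iUnion fun i => countable_iUnion fun j => hM1 i j, ?_⟩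
  intro y z hyz
  rcases hM2 y.2 z.2 (y.1, z.1) hyz with h' | h'
  · exact Or.inl (mem_iUnion.2 ⟨_, mem_iUnion.2 ⟨_, h'⟩⟩)
  · exact Or.inr (mem_iUnion.2 ⟨_, mem_iUnion.2 ⟨_, h'⟩⟩)

/-- `S2`: on each vertical line the two closures meet in a countable set -/
theorem line_countable (hN : Good D N) (A B : Set (XS N × XS N)) (hA : IsClosed A)
    (hB : IsClosed B) (hd : Disjoint A B) (m : XS N) :
    {z : E | (m, z) ∈ closure (j1 '' A) ∧ (m, z) ∈ closure (j1 '' B)}.Countable := by
  classical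
  by_contra hu
  set Nm : Set E := {z : E | (m, z) ∈ closure (j1 '' A) ∧ (m, z) ∈ closure (j1 '' B)} with hNm
  have hNc : IsClosed Nm :=
    ((isClosed_closure (s := j1 '' A)).inter (isClosed_closure (s := j1 '' B))).preimage
      (Continuous.prodMk_right m)
  obtain ⟨i, hi⟩ : ∃ i : Bool, ¬ {c : Om | (c, i) ∈ Nm}.Countable := by
    by_contra hcon
    push Not at hcon
    apply hu
    have : Nm ⊆ ⋃ i : Bool, (fun c : Om => ((c, i) : E)) '' {c : Om | (c, i) ∈ Nm} := by
      rintro ⟨c, i⟩ hc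
      exact mem_iUnion.2 ⟨i, c, hc, rfl⟩
    exact (countable_iUnion fun i => (hcon i).image _).mono this
  have hic : IsClosed {c : Om | (c, i) ∈ Nm} := hNc.preimage (by fun_prop)
  have hNne : Nm.Nonempty := by
    by_contra h
    rw [Set.not_nonempty_iff_eq_empty] at h
    exact hu (by rw [h]; exact countable_empty)
  obtain ⟨z0, hz0A, hz0B⟩ := hNne
  let S : ℕ → Set (XS N) := fun a => {z' | ∃ m' ∈ BX m a, (m', z') ∈ A}
  let T : ℕ → Set (XS N) := fun a => {z' | ∃ m' ∈ BX m a, (m', z') ∈ B}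
  have hS : ∀ a, (S a).Nonempty := fun a => by
    obtain ⟨p, hp, hp1, hp2⟩ := (closXE hN A m z0).1 hz0A a
    exact ⟨p.2, p.1, hp1, hp⟩
  have hT : ∀ a, (T a).Nonempty := fun a => by
    obtain ⟨p, hp, hp1, hp2⟩ := (closXE hN B m z0).1 hz0B a
    exact ⟨p.2, p.1, hp1, hp⟩
  choose s hs1 hs2 using fun a => dense_seq (S a) (hS a) (fun z => mu D z.pt z.pt)
  choose t ht1 ht2 using fun a => dense_seq (T a) (hT a) (fun z => mu D z.pt z.pt)
  obtain ⟨w, hw1, hw2⟩ := dense_seq Nm ⟨z0, hz0A, hz0B⟩ (fun z => mu D z z)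
  have hmuc : Continuous (fun z : E => mu D z z) := by
    have : (fun z : E => mu D z z) = fun z : E => ((z, z, D.q0) : E × E × Q) := by
      funext z
      simp [mu, hs]
    rw [this]
    fun_prop
  obtain ⟨y, z, h1, h2⟩ := hN.hG
    (fun n k => if n % 2 = 0 then ((s (n / 2) k).pt, (s (n / 2) k).pt) else
      ((t (n / 2) k).pt, (t (n / 2) k).pt))
    (fun k => mu D (w k) (w k)) (by
      intro F hF
      obtain ⟨c, hc, hcF⟩ := big _ hic hi F hF
      exact ⟨(c, i), (c, i), hcF, hcF, hw2 ⟨(c, i), hc, rfl⟩⟩)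
  have h3 : y = z ∧ y ∈ Nm := by
    have hcl : IsClosed {p : E × E × Q | p.1 = p.2.1 ∧ p.1 ∈ Nm} :=
      (isClosed_eq continuous_fst (continuous_fst.comp continuous_snd)).inter
        (hNc.preimage continuous_fst)
    have : closure (range fun k => mu D (w k) (w k)) ⊆ {p : E × E × Q | p.1 = p.2.1 ∧ p.1 ∈ Nm} :=
      closure_minimal (by rintro _ ⟨k, rfl⟩; exact ⟨rfl, hw1 k⟩) hcl
    exact this h1
  obtain ⟨rfl, hyA, hyB⟩ := h3
  have hmA : ((m, ⟨y⟩) : XS N × XS N) ∈ closure A := by
    rw [closXX hN]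
    intro l
    have e1 : (2 * l) % 2 = 0 := by omega
    have e2 : 2 * l / 2 = l := by omega
    obtain ⟨k, hk1, hk2⟩ := h2 (2 * l) (by
      simp only [e1, e2, if_true]
      have hy : y ∈ closure (XS.pt '' (S l)) := by
        rw [mem_closure_iff_nhds_basis (nhds_cE y)]
        intro l' _
        obtain ⟨p, hp, hp1, hp2⟩ := (closXE hN A m y).1 hyA (max l l')
        exact ⟨p.2.pt, ⟨p.2, ⟨p.1, BX_anti _ (le_max_left _ _) hp1, hp⟩, rfl⟩,
          cE_anti _ (le_max_right _ _) hp2⟩
      have h5 : mu D y y ∈ closure ((fun z : E => mu D z z) '' (XS.pt '' (S l))) :=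
        image_closure_subset_closure_image hmuc ⟨y, hy, rfl⟩
      rw [image_image] at h5
      exact closure_minimal (hs2 l) isClosed_closure h5) l
    simp only [e1, e2, if_true] at hk1 hk2
    obtain ⟨m', hm', hmA⟩ := hs1 l k
    exact ⟨(m', s l k), hmA, hm', hk1⟩
  have hmB : ((m, ⟨y⟩) : XS N × XS N) ∈ closure B := by
    rw [closXX hN]
    intro l
    have e1 : (2 * l + 1) % 2 = 1 := by omega
    have e2 : (2 * l + 1) / 2 = l := by omega
    obtain ⟨k, hk1, hk2⟩ := h2 (2 * l + 1) (by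
      simp only [e1, e2, one_ne_zero, if_false]
      have hy : y ∈ closure (XS.pt '' (T l)) := by
        rw [mem_closure_iff_nhds_basis (nhds_cE y)]
        intro l' _
        obtain ⟨p, hp, hp1, hp2⟩ := (closXE hN B m y).1 hyB (max l l')
        exact ⟨p.2.pt, ⟨p.2, ⟨p.1, BX_anti _ (le_max_left _ _) hp1, hp⟩, rfl⟩,
          cE_anti _ (le_max_right _ _) hp2⟩
      have h5 : mu D y y ∈ closure ((fun z : E => mu D z z) '' (XS.pt '' (T l))) :=
        image_closure_subset_closure_image hmuc ⟨y, hy, rfl⟩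
      rw [image_image] at h5
      exact closure_minimal (ht2 l) isClosed_closure h5) l
    simp only [e1, e2, one_ne_zero, if_false] at hk1 hk2
    obtain ⟨m', hm', hmB⟩ := ht1 l k
    exact ⟨(m', t l k), hmB, hm', hk1⟩
  rw [hA.closure_eq] at hmA
  rw [hB.closure_eq] at hmB
  exact Set.disjoint_left.1 hd hmA hmB

end H63Fed
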