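import Mathlib
import Pool.Agent.H63Fed.F

/-!
# Fedorcuk's question, part G: normality of the square and dimension zero of the factor
-/

set_option autoImplicit false

namespace H63Fed

open Set Filter Topology Cardinal H63Kunen

variable {Q : Type} [MetricSpace Q] [CompactSpace Q] {D : HD Q} {N : Om → Bool → Om → Bool}

theorem sep_union {Z ι : Type} [TopologicalSpace Z] [Countable ι] (S : ι → Set Z) (A B : Set Z)
    (h : ∀ i, HasSeparatingCover (S i) B) (hA : A ⊆ ⋃ i, S i) : HasSeparatingCover A B := by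
  classical
  choose u hu1 hu2 using h
  let Wf : Option (ι × ℕ) → Set Z := fun o => match o with
    | none => ∅
    | some p => u p.1 p.2
  obtain ⟨f, hf⟩ := exists_surjective_nat (Option (ι × ℕ))
  refine ⟨fun n => Wf (f n), ?_, ?_⟩
  · intro x hx
    obtain ⟨i, hi⟩ := mem_iUnion.1 (hA hx)
    obtain ⟨n, hn⟩ := mem_iUnion.1 (hu1 i hi)
    obtain ⟨m, hm⟩ := hf (some (i, n))
    refine mem_iUnion.2 ⟨m, ?_⟩
    rw [hm]
    exact hn
  · have hall : ∀ o, IsOpen (Wf o) ∧ Disjoint (closure (Wf o)) B := by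
      intro o
      match o with
      | none => simp [Wf]
      | some p => exact hu2 _ _
    exact fun n => hall (f n)

theorem sep_single {Z : Type} [TopologicalSpace Z] (A B W : Set Z) (hW : IsOpen W) (hA : A ⊆ W)
    (hB : Disjoint (closure W) B) : HasSeparatingCover A B :=
  ⟨fun _ => W, fun _ hx => mem_iUnion.2 ⟨0, hA hx⟩, fun _ => ⟨hW, hB⟩⟩

theorem sep_mono {Z : Type} [TopologicalSpace Z] {A A' B : Set Z} (h : HasSeparatingCover A' B)
    (hA : A ⊆ A') : HasSeparatingCover A B := by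
  obtain ⟨u, hu1, hu2⟩ := h
  exact ⟨u, hA.trans hu1, hu2⟩

/-- separation over a compact clopen countable piece of the first factor -/
theorem sep_line (hN : Good D N) (A B : Set (XS N × XS N)) (hA : IsClosed A)
    (hB : IsClosed B) (hd : Disjoint A B) (x : XS N) :
    HasSeparatingCover (A ∩ {p | p.1 ∈ BX x 0}) B := by
  classical
  let M : Set (XS N) := BX x 0
  have hMc : IsCompact M := compact_BX hN x
  let N' : Set E := {z : E | ∃ m ∈ M, (m, z) ∈ closure (j1 '' A) ∧ (m, z) ∈ closure (j1 '' B)}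
  have hN'c : N'.Countable := by
    have : N' = ⋃ m ∈ M, {z : E | (m, z) ∈ closure (j1 '' A) ∧ (m, z) ∈ closure (j1 '' B)} := by
      ext z
      simp only [N', mem_iUnion, mem_ofPred_eq, exists_prop]
    rw [this]
    exact (countable_BX hN x 0).biUnion fun m _ => line_countable hN A B hA hB hd m
  have hN'cl : IsClosed N' := by
    have : N' = Prod.snd '' ((M ×ˢ (Set.univ : Set E)) ∩
        (closure (j1 '' A) ∩ closure (j1 '' B))) := by
      ext z
      constructor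
      · rintro ⟨m, hm, h1, h2⟩
        exact ⟨(m, z), ⟨⟨hm, trivial⟩, h1, h2⟩, rfl⟩
      · rintro ⟨⟨m, z'⟩, ⟨⟨hm, -⟩, h1, h2⟩, rfl⟩
        exact ⟨m, hm, h1, h2⟩
    rw [this]
    exact (((hMc.prod isCompact_univ).inter_right
      (isClosed_closure.inter isClosed_closure)).image continuous_snd).isClosed
  have step1 : ∀ z : E, z ∉ N' → ∃ l, ∃ W : Set (XS N × XS N), IsOpen W ∧
      (∀ p ∈ A, p.1 ∈ M → p.2.pt ∈ cE z l → p ∈ W) ∧ Disjoint (closure W) B := by
    intro z hz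
    obtain ⟨l, -, hl⟩ := (nhds_cE z).mem_iff.1 (hN'cl.isOpen_compl.mem_nhds hz)
    refine ⟨l, ?_⟩
    have hK : IsCompact (M ×ˢ cE z l) := hMc.prod (isClosed_cE z l).isCompact
    have hKA : IsCompact ((M ×ˢ cE z l) ∩ closure (j1 '' A)) := hK.inter_right isClosed_closure
    have hKB : IsCompact ((M ×ˢ cE z l) ∩ closure (j1 '' B)) := hK.inter_right isClosed_closure
    have hdis : Disjoint ((M ×ˢ cE z l) ∩ closure (j1 '' A))
        ((M ×ˢ cE z l) ∩ closure (j1 '' B)) := by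
      rw [Set.disjoint_left]
      rintro ⟨a, c⟩ ⟨h1, h2⟩ ⟨-, h3⟩
      exact hl h1.2 ⟨a, h1.1, h2, h3⟩
    obtain ⟨U, V, hU, hV, hAU, hBV, hUV⟩ := SeparatedNhds.of_isCompact_isCompact hKA hKB hdis
    have hGc : IsClopen {p : XS N × XS N | p.1 ∈ M ∧ p.2.pt ∈ cE z l} :=
      ⟨((isClopen_BX x 0).isClosed.preimage continuous_fst).inter
          ((isClosed_cE z l).preimage (continuous_pt.comp continuous_snd)),
        ((isClopen_BX x 0).isOpen.preimage continuous_fst).inter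
          ((isOpen_cE z l).preimage (continuous_pt.comp continuous_snd))⟩
    obtain ⟨W, hW1, hW2, hW3⟩ := piece A B {p | p.1 ∈ M ∧ p.2.pt ∈ cE z l} (j1 ⁻¹' U) (j1 ⁻¹' V) hGc
      (hU.preimage continuous_j1) (hV.preimage continuous_j1) (hUV.preimage _)
      (fun p hp => hAU ⟨hp.2, subset_closure ⟨p, hp.1, rfl⟩⟩)
      (fun p hp => hBV ⟨hp.2, subset_closure ⟨p, hp.1, rfl⟩⟩)
    exact ⟨W, hW1, fun p hp hpM hpl => hW2 ⟨hp, hpM, hpl⟩, hW3⟩
  have step2 : ∀ z : E, ∃ W : Set (XS N × XS N), IsOpen W ∧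
      (∀ p ∈ A, p.1 ∈ M → p.2.pt = z → p ∈ W) ∧ Disjoint (closure W) B := by
    intro z
    have hGc : IsClopen (M ×ˢ BX (⟨z⟩ : XS N) 0) :=
      (isClopen_BX x 0).prod (isClopen_BX _ 0)
    have hK : IsCompact (M ×ˢ BX (⟨z⟩ : XS N) 0) := hMc.prod (compact_BX hN _)
    have hdis : Disjoint ((M ×ˢ BX (⟨z⟩ : XS N) 0) ∩ A) ((M ×ˢ BX (⟨z⟩ : XS N) 0) ∩ B) :=
      hd.mono inter_subset_right inter_subset_right
    obtain ⟨U, V, hU, hV, hAU, hBV, hUV⟩ := SeparatedNhds.of_isCompact_isCompact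
      (hK.inter_right hA) (hK.inter_right hB) hdis
    obtain ⟨W, hW1, hW2, hW3⟩ := piece A B _ U V hGc hU hV hUV
      (fun p hp => hAU ⟨hp.2, hp.1⟩) (fun p hp => hBV ⟨hp.2, hp.1⟩)
    refine ⟨W, hW1, fun p hp hpM hpl => hW2 ⟨hp, hpM, ?_⟩, hW3⟩
    have : p.2 = ⟨z⟩ := XS.ext hpl
    rw [this]
    exact self_mem_BX hN _ 0
  choose l W1 hW1 hW1A hW1B using step1
  choose W2 hW2 hW2A hW2B using step2
  obtain ⟨T, hTs, hTc, hT⟩ := TopologicalSpace.countable_cover_nhdsWithin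
    (f := fun z => if h : z ∉ N' then cE z (l z h) else ∅) (s := (N')ᶜ) (by
      intro z hz
      have hz' : z ∉ N' := hz
      rw [dif_pos hz']
      exact mem_nhdsWithin_of_mem_nhds ((isOpen_cE _ _).mem_nhds (self_mem_cE _ _)))
  have hcT : Countable T := hTc.to_subtype
  have hcN : Countable N' := hN'c.to_subtype
  let Wf : T ⊕ N' → Set (XS N × XS N) := fun o => match o with
    | Sum.inl t => W1 t.1 (hTs t.2)
    | Sum.inr t => W2 t.1
  refine sep_union Wf _ B ?_ ?_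
  · rintro (t | t)
    · exact sep_single _ _ _ (hW1 _ _) (Subset.refl _) (hW1B _ _)
    · exact sep_single _ _ _ (hW2 _) (Subset.refl _) (hW2B _)
  · rintro p ⟨hpA, hpM⟩
    by_cases h : p.2.pt ∈ N'
    · exact mem_iUnion.2 ⟨Sum.inr ⟨_, h⟩, hW2A _ p hpA hpM rfl⟩
    · have := hT h
      simp only [mem_iUnion] at this
      obtain ⟨z, hz, hpz⟩ := this
      have hzN : z ∉ N' := hTs hz
      rw [dif_pos hzN] at hpz
      exact mem_iUnion.2 ⟨Sum.inl ⟨z, hz⟩, hW1A z hzN p hpA hpM hpz⟩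

theorem sep_swap {X : Type} [TopologicalSpace X] (A B : Set (X × X))
    (h : HasSeparatingCover (Prod.swap ⁻¹' A) (Prod.swap ⁻¹' B)) : HasSeparatingCover A B := by
  obtain ⟨u, hu1, hu2⟩ := h
  refine ⟨fun n => Prod.swap ⁻¹' (u n), ?_, fun n => ⟨(hu2 n).1.preimage continuous_swap, ?_⟩⟩
  · intro p hp
    have : Prod.swap p ∈ Prod.swap ⁻¹' A := by
      change Prod.swap (Prod.swap p) ∈ A
      rwa [Prod.swap_swap]
    obtain ⟨n, hn⟩ := mem_iUnion.1 (hu1 this)
    exact mem_iUnion.2 ⟨n, hn⟩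
  · rw [Set.disjoint_left]
    intro p hp hpB
    have h1 : Prod.swap p ∈ closure (u n) :=
      (continuous_swap.closure_preimage_subset _) hp
    have h2 : Prod.swap p ∈ Prod.swap ⁻¹' B := by
      change Prod.swap (Prod.swap p) ∈ B
      rwa [Prod.swap_swap]
    exact Set.disjoint_left.1 (hu2 n).2 h1 h2

theorem sep_line' (hN : Good D N) (A B : Set (XS N × XS N)) (hA : IsClosed A)
    (hB : IsClosed B) (hd : Disjoint A B) (x : XS N) :
    HasSeparatingCover (A ∩ {p | p.2 ∈ BX x 0}) B := by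
  apply sep_swap
  exact sep_line hN (Prod.swap ⁻¹' A) (Prod.swap ⁻¹' B) (hA.preimage continuous_swap)
    (hB.preimage continuous_swap) (hd.preimage _) x

/-- closed sets are zero sets -/
theorem zero_fun {Y : Type} [TopologicalSpace Y] [TopologicalSpace.MetrizableSpace Y] (C : Set Y)
    (hC : IsClosed C) : ∃ f : Y → ℝ, Continuous f ∧ (∀ x, 0 ≤ f x) ∧ ∀ x, f x = 0 ↔ x ∈ C := by
  let _ := TopologicalSpace.metrizableSpaceMetric Y
  rcases C.eq_empty_or_nonempty with h | h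
  · exact ⟨fun _ => 1, continuous_const, fun _ => zero_le_one, fun x => by simp [h]⟩
  · exact ⟨fun x => Metric.infDist x C, Metric.continuous_infDist_pt C,
      fun x => Metric.infDist_nonneg, fun x => (hC.mem_iff_infDist_zero h).symm⟩

theorem cover_XX (hN : Good D N) (A B : Set (XS N × XS N)) (hA : IsClosed A)
    (hB : IsClosed B) (hd : Disjoint A B) : HasSeparatingCover A B := by
  classical
  obtain ⟨F, hF, hbad⟩ := bad_small hN A B hA hB hd
  obtain ⟨M, hM, hMb⟩ := bad_thin (D := D) _ (isClosed_closure.inter isClosed_closure) F hF hbad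
  obtain ⟨f, hf1, hf2, hf3⟩ := zero_fun (closure (muX D '' B)) isClosed_closure
  have hcM : Countable M := hM.to_subtype
  let S : ℕ ⊕ (M × Bool) ⊕ (M × Bool) → Set (XS N × XS N) := fun o => match o with
    | Sum.inl n => {p | 1 / ((n : ℝ) + 1) < f (muX D p)}
    | Sum.inr (Sum.inl c) => A ∩ {p | p.1 ∈ BX (⟨(c.1.1, c.2)⟩ : XS N) 0}
    | Sum.inr (Sum.inr c) => A ∩ {p | p.2 ∈ BX (⟨(c.1.1, c.2)⟩ : XS N) 0}
  have hfc : Continuous (fun p : XS N × XS N => f (muX D p)) := hf1.comp (continuous_muX hN)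
  refine sep_union S A B ?_ ?_
  · rintro (n | c | c)
    · refine sep_single _ _ {p | 1 / ((n : ℝ) + 1) < f (muX D p)}
        (isOpen_lt continuous_const hfc) (Subset.refl _) ?_
      rw [Set.disjoint_left]
      intro p hp hpB
      have h1 : p ∈ {p | 1 / ((n : ℝ) + 1) ≤ f (muX D p)} :=
        closure_minimal (fun q hq => le_of_lt hq) (isClosed_le continuous_const hfc) hp
      have h2 : f (muX D p) = 0 := (hf3 _).2 (subset_closure ⟨p, hpB, rfl⟩)
      have h3 : (0 : ℝ) < 1 / ((n : ℝ) + 1) := by positivity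
      have h4 : 1 / ((n : ℝ) + 1) ≤ f (muX D p) := h1
      linarith
    · exact sep_line hN A B hA hB hd _
    · exact sep_line' hN A B hA hB hd _
  · intro p hp
    by_cases hc : muX D p ∈ closure (muX D '' B)
    · have h1 : mu D p.1.pt p.2.pt ∈ closure (muX D '' A) ∩ closure (muX D '' B) :=
        ⟨subset_closure ⟨p, hp, rfl⟩, hc⟩
      rcases hMb _ _ h1 with h | h
      · refine mem_iUnion.2 ⟨Sum.inr (Sum.inl (⟨_, h⟩, p.1.pt.2)), hp, ?_⟩
        exact self_mem_BX hN p.1 0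
      · refine mem_iUnion.2 ⟨Sum.inr (Sum.inr (⟨_, h⟩, p.2.pt.2)), hp, ?_⟩
        exact self_mem_BX hN p.2 0
    · have h1 : 0 < f (muX D p) := lt_of_le_of_ne (hf2 _) fun h => hc ((hf3 _).1 h.symm)
      obtain ⟨n, hn⟩ := exists_nat_one_div_lt h1
      exact mem_iUnion.2 ⟨Sum.inl n, hn⟩

theorem normal_XX (hN : Good D N) : NormalSpace (XS N × XS N) :=
  ⟨fun A B hA hB hd => hasSeparatingCovers_iff_separatedNhds.1
    ⟨cover_XX hN A B hA hB hd, cover_XX hN B A hB hA hd.symm⟩⟩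

theorem t35_X (hN : Good D N) : T35Space (XS N) := by
  have := normal_XX hN
  have h1 : T4Space (XS N × XS N) := by infer_instance
  have h2 : IsClosedEmbedding (fun x : XS N => (x, x)) := by
    refine IsClosedEmbedding.of_continuous_injective_isClosedMap (by fun_prop)
      (fun a b h => congrArg Prod.fst h) ?_
    intro C hC
    have : (fun x : XS N => (x, x)) '' C = {p : XS N × XS N | p.1 = p.2 ∧ p.1 ∈ C} := by
      ext ⟨a, b⟩
      constructor
      · rintro ⟨x, hx, h⟩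
        cases h
        exact ⟨rfl, hx⟩
      · rintro ⟨h1, h2⟩
        exact ⟨a, h2, by rw [show b = a from h1.symm]⟩
    rw [this]
    exact (isClosed_eq continuous_fst continuous_snd).inter (hC.preimage continuous_fst)
  have h3 : T4Space (XS N) := h2.t4Space
  infer_instance

/-! ### dimension zero of the factor -/

theorem clopen_sep (hN : Good D N) (A B : Set (XS N)) (hA : IsClosed A) (hB : IsClosed B)
    (hd : Disjoint A B) : ∃ C : Set (XS N), IsClopen C ∧ A ⊆ C ∧ Disjoint C B := by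
  classical
  let x0 : XS N := ⟨(fun _ => false, false)⟩
  have hcnt := line_countable hN (Prod.snd ⁻¹' A) (Prod.snd ⁻¹' B) (hA.preimage continuous_snd)
    (hB.preimage continuous_snd) (hd.preimage _) x0
  set Nz := {z : E | (x0, z) ∈ closure (j1 '' (Prod.snd ⁻¹' A)) ∧
    (x0, z) ∈ closure (j1 '' (Prod.snd ⁻¹' B))} with hNz
  have hcl : ∀ (S : Set (XS N)) (z : E), (x0, z) ∉ closure (j1 '' (Prod.snd ⁻¹' S)) →
      ∃ l, ∀ w ∈ S, w.pt ∉ cE z l := by
    intro S z h
    by_contra hcon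
    push Not at hcon
    apply h
    rw [closXE hN]
    intro l
    obtain ⟨w, hw, hwl⟩ := hcon l
    exact ⟨(x0, w), hw, self_mem_BX hN _ _, hwl⟩
  have step1 : ∀ z : E, z ∉ Nz → ∃ l, (∀ w ∈ A, w.pt ∉ cE z l) ∨ (∀ w ∈ B, w.pt ∉ cE z l) := by
    intro z hz
    by_cases h : (x0, z) ∈ closure (j1 '' (Prod.snd ⁻¹' A))
    · have h2 : (x0, z) ∉ closure (j1 '' (Prod.snd ⁻¹' B)) := fun h2 => hz ⟨h, h2⟩
      obtain ⟨l, hl⟩ := hcl B z h2
      exact ⟨l, Or.inr hl⟩
    · obtain ⟨l, hl⟩ := hcl A z h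
      exact ⟨l, Or.inl hl⟩
  have step2 : ∀ x : XS N, ∃ l, Disjoint (BX x l) A ∨ Disjoint (BX x l) B := by
    intro x
    by_cases h : x ∈ A
    · have h2 : x ∈ Bᶜ := fun h2 => Set.disjoint_left.1 hd h h2
      obtain ⟨l, -, hl⟩ := (nhds_X hN x).mem_iff.1 (hB.isOpen_compl.mem_nhds h2)
      exact ⟨l, Or.inr (Set.disjoint_left.2 fun w hw => hl hw)⟩
    · obtain ⟨l, -, hl⟩ := (nhds_X hN x).mem_iff.1 (hA.isOpen_compl.mem_nhds h)
      exact ⟨l, Or.inl (Set.disjoint_left.2 fun w hw => hl hw)⟩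
  choose l hl using step1
  choose l' hl' using step2
  obtain ⟨T, hTs, hTc, hT⟩ := TopologicalSpace.countable_cover_nhdsWithin
    (f := fun z => if h : z ∉ Nz then cE z (l z h) else ∅) (s := Nzᶜ) (by
      intro z hz
      have hz' : z ∉ Nz := hz
      rw [dif_pos hz']
      exact mem_nhdsWithin_of_mem_nhds ((isOpen_cE _ _).mem_nhds (self_mem_cE _ _)))
  have hcT : Countable T := hTc.to_subtype
  have hcN : Countable Nz := hcnt.to_subtype
  let Wf : Option (T ⊕ Nz) → Set (XS N) := fun o => match o with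
    | none => ∅
    | some (Sum.inl t) => {w | w.pt ∈ cE t.1 (l t.1 (hTs t.2))}
    | some (Sum.inr t) => BX (⟨t.1⟩ : XS N) (l' ⟨t.1⟩)
  have hWf : ∀ o, IsClopen (Wf o) ∧ (Disjoint (Wf o) A ∨ Disjoint (Wf o) B) := by
    intro o
    match o with
    | none => exact ⟨isClopen_empty, Or.inl (by simp [Wf])⟩
    | some (Sum.inl t) =>
      refine ⟨⟨(isClosed_cE _ _).preimage continuous_pt, (isOpen_cE _ _).preimage continuous_pt⟩, ?_⟩
      rcases hl t.1 (hTs t.2) with h | h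
      · exact Or.inl (Set.disjoint_left.2 fun w hw hwA => h w hwA hw)
      · exact Or.inr (Set.disjoint_left.2 fun w hw hwB => h w hwB hw)
    | some (Sum.inr t) => exact ⟨isClopen_BX _ _, hl' _⟩
  obtain ⟨f, hf⟩ := exists_surjective_nat (Option (T ⊕ Nz))
  have hcov : ∀ x : XS N, ∃ n, x ∈ Wf (f n) := by
    intro x
    by_cases h : x.pt ∈ Nz
    · obtain ⟨n, hn⟩ := hf (some (Sum.inr ⟨_, h⟩))
      refine ⟨n, ?_⟩
      rw [hn]
      exact self_mem_BX hN x _
    · have := hT h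
      simp only [mem_iUnion] at this
      obtain ⟨z, hz, hpz⟩ := this
      have hzN : z ∉ Nz := hTs hz
      rw [dif_pos hzN] at hpz
      obtain ⟨n, hn⟩ := hf (some (Sum.inl ⟨z, hz⟩))
      refine ⟨n, ?_⟩
      rw [hn]
      exact hpz
  -- disjointify
  let Dn : ℕ → Set (XS N) := fun n => Wf (f n) \ ⋃ m ∈ Finset.range n, Wf (f m)
  have hDn : ∀ n, IsOpen (Dn n) := by
    intro n
    refine (hWf _).1.isOpen.sdiff ?_
    exact isClosed_biUnion_finset fun m _ => (hWf _).1.isClosed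
  have hDcov : ∀ x, ∃ n, x ∈ Dn n := by
    intro x
    refine ⟨Nat.find (hcov x), Nat.find_spec (hcov x), ?_⟩
    simp only [mem_iUnion, Finset.mem_range, not_exists]
    intro m hm
    exact Nat.find_min (hcov x) hm
  have hDuniq : ∀ x m n, x ∈ Dn m → x ∈ Dn n → m = n := by
    have aux : ∀ x m n, m < n → x ∈ Dn m → x ∉ Dn n := by
      intro x m n hmn h1 h2
      apply h2.2
      simp only [mem_iUnion, Finset.mem_range]
      exact ⟨m, hmn, h1.1⟩
    intro x m n h1 h2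
    rcases lt_trichotomy m n with h | h | h
    · exact absurd h2 (aux x m n h h1)
    · exact h
    · exact absurd h1 (aux x n m h h2)
  let C : Set (XS N) := ⋃ n ∈ {n | (Dn n ∩ A).Nonempty}, Dn n
  have hCc : Cᶜ = ⋃ n ∈ {n | ¬ (Dn n ∩ A).Nonempty}, Dn n := by
    ext x
    simp only [C, mem_compl_iff, mem_iUnion, mem_ofPred_eq, not_exists]
    constructor
    · intro h
      obtain ⟨n, hn⟩ := hDcov x
      exact ⟨n, fun h' => h n h' hn, hn⟩
    · rintro ⟨n, hn, hxn⟩ m hm hxm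
      have := hDuniq x m n hxm hxn
      subst this
      exact hn hm
  refine ⟨C, ⟨?_, isOpen_biUnion fun n _ => hDn n⟩, ?_, ?_⟩
  · rw [← isOpen_compl_iff, hCc]
    exact isOpen_biUnion fun n _ => hDn n
  · intro x hx
    obtain ⟨n, hn⟩ := hDcov x
    simp only [C, mem_iUnion, mem_ofPred_eq]
    exact ⟨n, ⟨x, hn, hx⟩, hn⟩
  · rw [Set.disjoint_left]
    intro x hx hxB
    simp only [C, mem_iUnion, mem_ofPred_eq] at hx
    obtain ⟨n, ⟨y, hy, hyA⟩, hxn⟩ := hx
    rcases (hWf (f n)).2 with h | h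
    · exact Set.disjoint_left.1 h hy.1 hyA
    · exact Set.disjoint_left.1 h hxn.1 hxB

theorem dim_zero (hN : Good D N) (m : ℕ) (U : Fin m → Set (XS N))
    (hU : ∀ i, ∃ f : XS N → ℝ, Continuous f ∧ U i = {x | f x ≠ 0})
    (hcov : (⋃ i, U i) = Set.univ) :
    ∃ (k : ℕ) (V : Fin k → Set (XS N)),
      (∀ j, ∃ f : XS N → ℝ, Continuous f ∧ V j = {x | f x ≠ 0}) ∧
      (⋃ j, V j) = Set.univ ∧
      (∀ j, ∃ i, V j ⊆ U i) ∧
      ∀ x, {j : Fin k | x ∈ V j}.ncard ≤ 1 := by
  classical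
  have h4 : NormalSpace (XS N) := by
    constructor
    intro A B hA hB hd
    obtain ⟨C, hC, hAC, hCB⟩ := clopen_sep hN A B hA hB hd
    exact ⟨C, Cᶜ, hC.isOpen, hC.isClosed.isOpen_compl, hAC,
      fun x hx hxC => Set.disjoint_left.1 hCB hxC hx, disjoint_compl_right⟩
  have hUo : ∀ i, IsOpen (U i) := by
    intro i
    obtain ⟨f, hf, h⟩ := hU i
    rw [h]
    exact isOpen_ne_fun hf continuous_const
  obtain ⟨v, hv1, hv2, hv3⟩ := exists_iUnion_eq_closed_subset hUo
    (fun x => Set.toFinite _) hcov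
  have hC : ∀ i, ∃ C : Set (XS N), IsClopen C ∧ v i ⊆ C ∧ C ⊆ U i := by
    intro i
    obtain ⟨C, hC, h1, h2⟩ := clopen_sep hN (v i) (U i)ᶜ (hv2 i) (hUo i).isClosed_compl
      (Set.disjoint_left.2 fun x hx hx' => hx' (hv3 i hx))
    refine ⟨C, hC, h1, fun x hx => ?_⟩
    by_contra hxU
    exact Set.disjoint_left.1 h2 hx hxU
  choose C hC1 hC2 hC3 using hC
  have hV : ∀ i : Fin m, IsClopen (C i \ ⋃ j ∈ {j : Fin m | j < i}, C j) := by
    intro i
    refine (hC1 i).diff ?_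
    exact (Set.toFinite _).isClopen_biUnion fun j _ => hC1 j
  refine ⟨m, fun i => C i \ ⋃ j ∈ {j : Fin m | j < i}, C j, ?_, ?_, ?_, ?_⟩
  · intro i
    refine ⟨Set.indicator (C i \ ⋃ j ∈ {j : Fin m | j < i}, C j) (fun _ => 1),
      (IsClopen.continuous_indicator (hV i) continuous_const), ?_⟩
    ext x
    simp only [mem_ofPred_eq, ne_eq, Set.indicator_apply_eq_zero, one_ne_zero, imp_false, not_not]
  · rw [Set.eq_univ_iff_forall]
    intro x
    have hx : ∃ i, x ∈ C i := by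
      have : x ∈ ⋃ i, v i := by rw [hv1]; trivial
      obtain ⟨i, hi⟩ := mem_iUnion.1 this
      exact ⟨i, hC2 i hi⟩
    have hne : (Finset.univ.filter fun i : Fin m => x ∈ C i).Nonempty := by
      obtain ⟨i, hi⟩ := hx
      exact ⟨i, by simp [hi]⟩
    obtain ⟨i, hi, hmin⟩ := Finset.exists_min_image _ (fun i : Fin m => i) hne
    refine mem_iUnion.2 ⟨i, (by simpa using hi), ?_⟩
    simp only [mem_iUnion, mem_ofPred_eq, not_exists]
    intro j hj hxj
    exact absurd (hmin j (by simp [hxj])) (not_le.2 hj)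
  · intro i
    exact ⟨i, sdiff_subset.trans (hC3 i)⟩
  · intro x
    rw [Set.ncard_le_one]
    intro i hi j hj
    have aux : ∀ i j : Fin m, i < j → x ∈ C i \ ⋃ k ∈ {k : Fin m | k < i}, C k →
        x ∉ C j \ ⋃ k ∈ {k : Fin m | k < j}, C k := by
      intro i j hij h1 h2
      apply h2.2
      simp only [mem_iUnion, mem_ofPred_eq]
      exact ⟨i, hij, h1.1⟩
    rcases lt_trichotomy i j with h | h | h
    · exact absurd hj (aux i j h hi)
    · exact h
    · exact absurd hi (aux j i h hj)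

end H63Fed
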