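import Mathlib

/-!
# Fedorcuk's question, part H: partitions in spaces of finite cozero dimension
-/

set_option autoImplicit false

namespace H63Fed

open Set Filter Topology

/-- finite cozero dimension -/
def DimLE (Z : Type) [TopologicalSpace Z] (n : ℕ) : Prop :=
  ∀ (m : ℕ) (U : Fin m → Set Z),
    (∀ i, ∃ f : Z → ℝ, Continuous f ∧ U i = {x | f x ≠ 0}) →
    (⋃ i, U i) = Set.univ →
    ∃ (l : ℕ) (V : Fin l → Set Z),
      (∀ j, ∃ f : Z → ℝ, Continuous f ∧ V j = {x | f x ≠ 0}) ∧
      (⋃ j, V j) = Set.univ ∧
      (∀ j, ∃ i, V j ⊆ U i) ∧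
      ∀ x, {j : Fin l | x ∈ V j}.ncard ≤ n + 1

theorem exists_generic (n l : ℕ) (e : Fin l → (Fin (n + 1) → ℝ)) :
    ∃ t : Fin (n + 1) → ℝ, (∀ i, 0 < t i ∧ t i < 1) ∧
      ∀ J : Finset (Fin l), J.card ≤ n + 1 → t ∉ affineSpan ℝ (e '' (J : Set (Fin l))) := by
  classical
  have hnull : ∀ J : Finset (Fin l), J.card ≤ n + 1 →
      MeasureTheory.volume ((affineSpan ℝ (e '' (J : Set (Fin l))) :
        AffineSubspace ℝ (Fin (n + 1) → ℝ)) : Set (Fin (n + 1) → ℝ)) = 0 := by
    intro J hJ
    apply MeasureTheory.Measure.addHaar_affineSubspace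
    intro htop
    rcases J.eq_empty_or_nonempty with h | h
    · subst h
      simp only [Finset.coe_empty, Set.image_empty, AffineSubspace.span_empty] at htop
      have : (0 : Fin (n + 1) → ℝ) ∈ (⊥ : AffineSubspace ℝ (Fin (n + 1) → ℝ)) := by
        rw [htop]
        trivial
      exact this
    · obtain ⟨k, hk⟩ : ∃ k, J.card = k + 1 := ⟨J.card - 1, by
        have := h.card_pos
        omega⟩
      have h1 := finrank_vectorSpan_image_finset_le ℝ e J hk
      rw [Finset.coe_image] at h1
      have h2 : vectorSpan ℝ (e '' (J : Set (Fin l))) = ⊤ := by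
        rw [← direction_affineSpan, htop, AffineSubspace.direction_top]
      rw [h2, finrank_top, Module.finrank_fin_fun] at h1
      omega
  let C : Set (Fin (n + 1) → ℝ) := Set.pi Set.univ (fun _ => Ioo (0 : ℝ) 1)
  have hCo : IsOpen C := isOpen_set_pi Set.finite_univ fun _ _ => isOpen_Ioo
  have hCne : C.Nonempty := ⟨fun _ => 1 / 2, fun _ _ => ⟨by norm_num, by norm_num⟩⟩
  have hpos := hCo.measure_pos MeasureTheory.volume hCne
  by_contra hcon
  push Not at hcon
  have hsub : C ⊆ ⋃ J : {J : Finset (Fin l) // J.card ≤ n + 1},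
      ((affineSpan ℝ (e '' (J.1 : Set (Fin l))) :
        AffineSubspace ℝ (Fin (n + 1) → ℝ)) : Set (Fin (n + 1) → ℝ)) := by
    intro t ht
    obtain ⟨J, hJ, h⟩ := hcon t fun i => ht i trivial
    exact mem_iUnion.2 ⟨⟨J, hJ⟩, h⟩
  have h0 := MeasureTheory.measure_mono_null hsub
    (MeasureTheory.measure_iUnion_null fun J => hnull J.1 J.2)
  rw [h0] at hpos
  exact lt_irrefl _ hpos

theorem part_lemma {Z : Type} [TopologicalSpace Z] (n : ℕ) (h : DimLE Z n)
    (g : Fin (n + 1) → Z → ℝ) (hg : ∀ i, Continuous (g i)) :
    ∃ P R : Fin (n + 1) → Set Z, (∀ i, IsClosed (P i)) ∧ (∀ i, IsClosed (R i)) ∧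
      (∀ i x, x ∈ P i ∨ x ∈ R i) ∧ (∀ i, ∀ x ∈ P i, g i x < 2 / 3) ∧
      (∀ i, ∀ x ∈ R i, 1 / 3 < g i x) ∧ ∀ x, ∃ i, x ∉ P i ∨ x ∉ R i := by
  classical
  let eq : (Fin (n + 1) → Bool) ≃ Fin (Fintype.card (Fin (n + 1) → Bool)) := Fintype.equivFin _
  let U : (Fin (n + 1) → Bool) → Set Z := fun s =>
    {x | ∀ i, if s i = true then 1 / 3 < g i x else g i x < 2 / 3}
  obtain ⟨l, V, hV1, hV2, hV3, hV4⟩ := h _ (fun k => U (eq.symm k)) (by
    intro k
    refine ⟨fun x => ∏ i, max 0 (if eq.symm k i = true then g i x - 1 / 3 else 2 / 3 - g i x),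
      ?_, ?_⟩
    · refine continuous_finsetProd _ fun i _ => continuous_const.max ?_
      by_cases hs : eq.symm k i = true
      · simp only [hs, if_true]
        exact (hg i).sub continuous_const
      · simp only [hs, if_false]
        exact continuous_const.sub (hg i)
    · ext x
      simp only [U, mem_ofPred_eq, ne_eq, Finset.prod_eq_zero_iff, Finset.mem_univ, true_and,
        not_exists]
      refine forall_congr' fun i => ?_
      by_cases hs : eq.symm k i = true
      · simp only [hs, if_true]
        constructor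
        · intro h1 h2
          have := le_max_right 0 (g i x - 1 / 3)
          linarith
        · intro h1
          by_contra h2
          push Not at h2
          exact h1 (max_eq_left (by linarith))
      · simp only [hs, if_false]
        constructor
        · intro h1 h2
          have := le_max_right 0 (2 / 3 - g i x)
          simp only [Bool.false_eq_true, if_false] at h1 h2
          linarith
        · intro h1
          by_contra h2
          simp only [Bool.false_eq_true, if_false] at h1 h2
          push Not at h2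
          exact h1 (max_eq_left (by linarith))) (by
    rw [Set.eq_univ_iff_forall]
    intro x
    refine mem_iUnion.2 ⟨eq (fun i => decide (1 / 3 < g i x)), ?_⟩
    simp only [U, Equiv.symm_apply_apply, mem_ofPred_eq, decide_eq_true_iff]
    intro i
    split_ifs with h1
    · exact h1
    · linarith)
  choose f hf1 hf2 using hV1
  choose s hs using hV3
  let s' : Fin l → (Fin (n + 1) → Bool) := fun j => eq.symm (s j)
  let e : Fin l → (Fin (n + 1) → ℝ) := fun j i => if s' j i = true then 1 else 0
  obtain ⟨t, ht1, ht2⟩ := exists_generic n l e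
  let σ : Z → ℝ := fun x => ∑ j, |f j x|
  have hσc : Continuous σ := continuous_finsetSum _ fun j _ => (hf1 j).abs
  have hσ : ∀ x, 0 < σ x := by
    intro x
    have : x ∈ ⋃ j, V j := by rw [hV2]; trivial
    obtain ⟨j, hj⟩ := mem_iUnion.1 this
    rw [hf2 j] at hj
    refine Finset.sum_pos' (fun i _ => abs_nonneg _) ⟨j, Finset.mem_univ j, abs_pos.2 hj⟩
  let lam : Fin l → Z → ℝ := fun j x => |f j x| / σ x
  have hlc : ∀ j, Continuous (lam j) := fun j => (hf1 j).abs.div hσc fun x => (hσ x).ne'
  have hl0 : ∀ j x, 0 ≤ lam j x := fun j x => div_nonneg (abs_nonneg _) (hσ x).le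
  have hl1 : ∀ x, ∑ j, lam j x = 1 := by
    intro x
    simp only [lam]
    rw [← Finset.sum_div]
    exact div_self (hσ x).ne'
  have hlV : ∀ j x, x ∉ V j → lam j x = 0 := by
    intro j x hx
    rw [hf2 j] at hx
    have : f j x = 0 := by simpa using hx
    simp [lam, this]
  let φ : Fin (n + 1) → Z → ℝ := fun i x => ∑ j, lam j x * e j i
  have hφc : ∀ i, Continuous (φ i) := fun i =>
    continuous_finsetSum _ fun j _ => (hlc j).mul continuous_const
  refine ⟨fun i => {x | φ i x ≤ t i}, fun i => {x | t i ≤ φ i x},
    fun i => isClosed_le (hφc i) continuous_const, fun i => isClosed_le continuous_const (hφc i),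
    fun i x => le_total (φ i x) (t i), ?_, ?_, ?_⟩
  · intro i x hx
    by_contra hcon
    push Not at hcon
    have : φ i x = 1 := by
      rw [← hl1 x]
      refine Finset.sum_congr rfl fun j _ => ?_
      by_cases hj : x ∈ V j
      · have h1 := hs j hj i
        have h2 : s' j i = true := by
          by_contra h3
          have h4 : ¬ (eq.symm (s j) i = true) := h3
          rw [if_neg h4] at h1
          linarith
        simp [e, h2]
      · rw [hlV j x hj, zero_mul]
    have h1 : φ i x ≤ t i := hx
    have h2 := (ht1 i).2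
    linarith
  · intro i x hx
    by_contra hcon
    push Not at hcon
    have : φ i x = 0 := by
      refine Finset.sum_eq_zero fun j _ => ?_
      by_cases hj : x ∈ V j
      · have h1 := hs j hj i
        have h2 : ¬ (s' j i = true) := by
          intro h3
          have h4 : eq.symm (s j) i = true := h3
          rw [if_pos h4] at h1
          linarith
        simp only [e, if_neg h2, mul_zero]
      · rw [hlV j x hj, zero_mul]
    have h1 : t i ≤ φ i x := hx
    have h2 := (ht1 i).1
    linarith
  · intro x
    by_contra hcon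
    push Not at hcon
    have heq : ∀ i, φ i x = t i := fun i => le_antisymm (hcon i).1 (hcon i).2
    let J : Finset (Fin l) := Finset.univ.filter fun j => x ∈ V j
    have hJ : J.card ≤ n + 1 := by
      have := hV4 x
      rw [Set.ncard_eq_toFinset_card'] at this
      convert this using 2
      ext j
      simp [J]
    apply ht2 J hJ
    have h1 : t = ∑ j ∈ J, lam j x • e j := by
      funext i
      rw [← heq i, Finset.sum_apply]
      simp only [φ, Pi.smul_apply, smul_eq_mul]
      symm
      refine Finset.sum_subset (Finset.subset_univ _) fun j _ hj => ?_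
      have : x ∉ V j := by simpa [J] using hj
      rw [hlV j x this, zero_mul]
    rw [h1]
    refine (AffineSubspace.convex (affineSpan ℝ (e '' (J : Set (Fin l))))).sum_mem
      (fun j _ => hl0 j x) ?_ (fun j hj => subset_affineSpan ℝ _ ⟨j, hj, rfl⟩)
    rw [← hl1 x]
    refine Finset.sum_subset (Finset.subset_univ _) fun j _ hj => ?_
    have : x ∉ V j := by simpa [J] using hj
    exact hlV j x this

end H63Fed
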