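import Mathlib
import Pool.Agent.H63Fed.G
import Pool.Agent.H63Fed.H
import Pool.Agent.H63Fed.Miranda

/-!
# Fedorcuk's question, part I: the square is not countable dimensional
-/

set_option autoImplicit false

namespace H63Fed

open Set Filter Topology Cardinal H63Kunen

/-- a space with coordinates and the infinite Poincare-Miranda property -/
structure CubeLike (Q : Type) [MetricSpace Q] : Type where
  pr : ℕ × ℕ → Q → ℝ
  cont : ∀ κ, Continuous (pr κ)
  miranda : ∀ ψ : ℕ × ℕ → Q → ℝ, (∀ κ, Continuous (ψ κ)) → (∀ κ q, pr κ q = 0 → ψ κ q ≤ 0) →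
    (∀ κ q, pr κ q = 1 → 0 ≤ ψ κ q) → ∃ q, ∀ κ, ψ κ q = 0

theorem cube_finite (ψ : ℕ × ℕ → (ℕ × ℕ → unitInterval) → ℝ) (hψ : ∀ κ, Continuous (ψ κ))
    (h0 : ∀ κ q, q κ = 0 → ψ κ q ≤ 0) (h1 : ∀ κ q, q κ = 1 → 0 ≤ ψ κ q)
    (s : Finset (ℕ × ℕ)) : ∃ q, ∀ κ ∈ s, ψ κ q = 0 := by
  classical
  let qx : (Fin s.card → ℝ) → (ℕ × ℕ → unitInterval) := fun x κ =>
    if h : κ ∈ s then Set.projIcc 0 1 zero_le_one (x (s.equivFin ⟨κ, h⟩)) else 0
  have hqx : Continuous qx := by
    refine continuous_pi fun κ => ?_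
    by_cases h : κ ∈ s
    · simp only [qx, dif_pos h]
      exact continuous_projIcc.comp (continuous_apply _)
    · simp only [qx, dif_neg h]
      exact continuous_const
  have hqi : ∀ x i, qx x (s.equivFin.symm i).1 = Set.projIcc 0 1 zero_le_one (x i) := by
    intro x i
    have hm : (s.equivFin.symm i).1 ∈ s := (s.equivFin.symm i).2
    simp only [qx, dif_pos hm, Subtype.coe_eta, Equiv.apply_symm_apply]
  obtain ⟨x, hx, hF⟩ := H63Fed.Miranda.poincare_miranda s.card
    (fun x i => ψ (s.equivFin.symm i).1 (qx x))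
    (Continuous.continuousOn (continuous_pi fun i => (hψ _).comp hqx)) (by
      intro x _ i hi
      apply h0
      rw [hqi, hi]
      exact Set.projIcc_left zero_le_one) (by
      intro x _ i hi
      apply h1
      rw [hqi, hi]
      exact Set.projIcc_right zero_le_one)
  refine ⟨qx x, fun κ hκ => ?_⟩
  have := congrFun hF (s.equivFin ⟨κ, hκ⟩)
  simpa using this

theorem exists_cube : ∃ (Q : Type) (_ : MetricSpace Q) (_ : CompactSpace Q) (_ : Nonempty Q),
    Nonempty (CubeLike Q) := by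
  classical
  let M : MetricSpace (ℕ × ℕ → unitInterval) := TopologicalSpace.metrizableSpaceMetric _
  refine ⟨ℕ × ℕ → unitInterval, M, ?_, inferInstance, ⟨?_⟩⟩
  · exact inferInstanceAs (CompactSpace (ℕ × ℕ → unitInterval))
  · refine ⟨fun κ q => (q κ : ℝ), fun κ => ?_, ?_⟩
    · exact continuous_subtype_val.comp (continuous_apply κ)
    · intro ψ hψ h0 h1
      have h0' : ∀ κ (q : ℕ × ℕ → unitInterval), q κ = 0 → ψ κ q ≤ 0 := by
        intro κ q hq
        exact h0 κ q (by rw [hq]; rfl)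
      have h1' : ∀ κ (q : ℕ × ℕ → unitInterval), q κ = 1 → 0 ≤ ψ κ q := by
        intro κ q hq
        exact h1 κ q (by rw [hq]; rfl)
      have hfin := cube_finite ψ hψ h0' h1'
      let Z : Finset (ℕ × ℕ) → Set (ℕ × ℕ → unitInterval) := fun s => {q | ∀ κ ∈ s, ψ κ q = 0}
      have hZc : ∀ s, IsClosed (Z s) := by
        intro s
        have : Z s = ⋂ κ ∈ s, {q | ψ κ q = 0} := by
          ext q
          simp [Z]
        rw [this]
        exact isClosed_biInter fun κ _ => isClosed_eq (hψ κ) continuous_const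
      have := IsCompact.nonempty_iInter_of_directed_nonempty_isCompact_isClosed Z (by
        intro s t
        refine ⟨s ∪ t, ?_, ?_⟩
        · intro q hq κ hκ
          exact hq κ (Finset.mem_union_left _ hκ)
        · intro q hq κ hκ
          exact hq κ (Finset.mem_union_right _ hκ)) hfin (fun s => (hZc s).isCompact) hZc
      obtain ⟨q, hq⟩ := this
      exact ⟨q, fun κ => mem_iInter.1 hq {κ} κ (Finset.mem_singleton_self κ)⟩

variable {Q : Type} [MetricSpace Q] [CompactSpace Q] {D : HD Q} {N : Om → Bool → Om → Bool}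

/-- the diagonal points -/
def ph (N : Om → Bool → Om → Bool) (c : Om) : XS N × XS N := (⟨(c, false)⟩, ⟨(c, true)⟩)

theorem hs_ph (c : Om) : hs D (c, false) (c, true) = D.h c := by
  unfold hs
  simp [hh_self]

theorem not_cd (hN : Good D N) (cb : CubeLike Q) :
    ¬ ∃ A : ℕ → Set (XS N × XS N), (⋃ k, A k) = Set.univ ∧ ∀ k, ∃ n : ℕ, DimLE (A k) n := by
  classical
  rintro ⟨A, hA, hn⟩
  choose n hn using hn
  have hgc : ∀ k i, Continuous (fun x : A k => cb.pr (k, i) (hs D x.1.1.pt x.1.2.pt)) := by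
    intro k i
    exact (cb.cont _).comp ((continuous_snd.comp (continuous_snd.comp (continuous_muX hN))).comp
      continuous_subtype_val)
  choose P R hPc hRc hPR hP hR hPRe using fun k => part_lemma (n k) (hn k)
    (fun i x => cb.pr (k, (i : ℕ)) (hs D x.1.1.pt x.1.2.pt)) (fun i => hgc k i)
  let P' : ℕ × ℕ → Set Om := fun κ => {c | ∃ (hj : κ.2 < n κ.1 + 1) (hc : ph N c ∈ A κ.1),
    (⟨ph N c, hc⟩ : A κ.1) ∈ P κ.1 ⟨κ.2, hj⟩}
  let R' : ℕ × ℕ → Set Om := fun κ => {c | ∃ (hj : κ.2 < n κ.1 + 1) (hc : ph N c ∈ A κ.1),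
    (⟨ph N c, hc⟩ : A κ.1) ∈ R κ.1 ⟨κ.2, hj⟩}
  let gr : Om → Om × Q := fun c => (c, D.h c)
  obtain ⟨f, hf1, hf2, hf3⟩ : ∃ f : ℕ × ℕ → Om × Q → ℝ, (∀ κ, Continuous (f κ)) ∧
      (∀ κ x, 0 ≤ f κ x) ∧ ∀ κ x, f κ x = 0 ↔ x ∈ closure (gr '' P' κ) ∪ {x | cb.pr κ x.2 = 0} := by
    choose f h1 h2 h3 using fun κ => zero_fun (closure (gr '' P' κ) ∪ {x | cb.pr κ x.2 = 0})
      (isClosed_closure.union (isClosed_eq ((cb.cont κ).comp continuous_snd) continuous_const))
    exact ⟨f, h1, h2, h3⟩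
  obtain ⟨g, hg1, hg2, hg3⟩ : ∃ g : ℕ × ℕ → Om × Q → ℝ, (∀ κ, Continuous (g κ)) ∧
      (∀ κ x, 0 ≤ g κ x) ∧ ∀ κ x, g κ x = 0 ↔ x ∈ closure (gr '' R' κ) ∪ {x | cb.pr κ x.2 = 1} := by
    choose f h1 h2 h3 using fun κ => zero_fun (closure (gr '' R' κ) ∪ {x | cb.pr κ x.2 = 1})
      (isClosed_closure.union (isClosed_eq ((cb.cont κ).comp continuous_snd) continuous_const))
    exact ⟨f, h1, h2, h3⟩
  let K : Set (Om × Q) := {x | ∀ κ, f κ x = g κ x}
  have hKc : IsClosed K := by
    have : K = ⋂ κ, {x | f κ x = g κ x} := by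
      ext x
      simp [K]
    rw [this]
    exact isClosed_iInter fun κ => isClosed_eq (hf1 κ) (hg1 κ)
  have hKfull : ∀ c, ∃ q, (c, q) ∈ K := by
    intro c
    obtain ⟨q, hq⟩ := cb.miranda (fun κ q => f κ (c, q) - g κ (c, q))
      (fun κ => ((hf1 κ).comp (Continuous.prodMk_right c)).sub
        ((hg1 κ).comp (Continuous.prodMk_right c)))
      (by
        intro κ q hq
        have h1 : f κ (c, q) = 0 := (hf3 κ _).2 (Or.inr hq)
        have h2 := hg2 κ (c, q)
        linarith)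
      (by
        intro κ q hq
        have h1 : g κ (c, q) = 0 := (hg3 κ _).2 (Or.inr hq)
        have h2 := hf2 κ (c, q)
        linarith)
    exact ⟨q, fun κ => by have := hq κ; linarith⟩
  have hhit := D.hit K hKc hKfull
  have hdense : ∀ S : Set Om, ∃ u : ℕ → Om, (S.Nonempty → ∀ k, u k ∈ S) ∧
      gr '' S ⊆ closure (range fun k => gr (u k)) := by
    intro S
    rcases S.eq_empty_or_nonempty with h | h
    · subst h
      exact ⟨fun _ _ => false, fun h => absurd h Set.not_nonempty_empty, by simp⟩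
    · obtain ⟨u, h1, h2⟩ := dense_seq S h gr
      exact ⟨u, fun _ => h1, h2⟩
  choose u hu1 hu2 using fun κ => hdense (P' κ)
  choose v hv1 hv2 using fun κ => hdense (R' κ)
  obtain ⟨w, hw1, hw2⟩ := hdense {c | gr c ∈ K}
  have hKne : {c | gr c ∈ K}.Nonempty := by
    obtain ⟨c, -, hc⟩ := hhit ∅ lt_cont_empty
    exact ⟨c, hc⟩
  have hw1' := hw1 hKne
  let io : Om × Q → E × E × Q := fun x => ((x.1, false), (x.1, true), x.2)
  have hio : Continuous io := by fun_prop
  have hmu : ∀ c, mu D (c, false) (c, true) = io (gr c) := by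
    intro c
    simp only [mu, hs_ph, io, gr]
  have hcl : ∀ (c : Om) (s : ℕ → Om), gr c ∈ closure (range fun k => gr (s k)) →
      mu D (c, false) (c, true) ∈ closure (range fun k => mu D (s k, false) (s k, true)) := by
    intro c s h
    rw [hmu]
    have h1 : io (gr c) ∈ closure (io '' (range fun k => gr (s k))) :=
      image_closure_subset_closure_image hio ⟨_, h, rfl⟩
    rw [← range_comp] at h1
    have h2 : (io ∘ fun k => gr (s k)) = fun k => mu D (s k, false) (s k, true) := by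
      funext k
      simp only [Function.comp, hmu]
    rwa [h2] at h1
  obtain ⟨y, z, h1, h2⟩ := hN.hG
    (fun m k => if m % 2 = 0 then ((u (Nat.unpair (m / 2)) k, false), (u (Nat.unpair (m / 2)) k, true))
      else ((v (Nat.unpair (m / 2)) k, false), (v (Nat.unpair (m / 2)) k, true)))
    (fun k => mu D (w k, false) (w k, true)) (by
      intro F hF
      obtain ⟨c, hcF, hc⟩ := hhit F hF
      exact ⟨(c, false), (c, true), hcF, hcF, hcl c w (hw2 ⟨c, hc, rfl⟩)⟩)
  have h3 : mu D y z ∈ {p : E × E × Q | p.1.2 = false ∧ p.2.1.2 = true ∧ p.1.1 = p.2.1.1 ∧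
      (p.1.1, p.2.2) ∈ K} := by
    refine closure_minimal ?_ ?_ h1
    · rintro _ ⟨k, rfl⟩
      simp only [hmu]
      exact ⟨rfl, rfl, rfl, hw1' k⟩
    · refine (isClosed_eq (by fun_prop) continuous_const).inter
        ((isClosed_eq (by fun_prop) continuous_const).inter
        ((isClosed_eq (by fun_prop) (by fun_prop)).inter (hKc.preimage (by fun_prop))))
  obtain ⟨c, hy⟩ : ∃ c, y = (c, false) := ⟨y.1, Prod.ext rfl h3.1⟩
  have hz : z = (c, true) := by
    refine Prod.ext ?_ h3.2.1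
    have := h3.2.2.1
    simp only [mu] at this
    rw [← this, hy]
  subst hy
  subst hz
  have hcK : gr c ∈ K := by
    have := h3.2.2.2
    simp only [mu, hs_ph] at this
    exact this
  obtain ⟨k, hk⟩ : ∃ k, ph N c ∈ A k := by
    have : ph N c ∈ ⋃ k, A k := by rw [hA]; trivial
    exact mem_iUnion.1 this
  -- the key claim
  have claim : ∀ (S : Set (A k)), IsClosed S → ∀ (S' : Set Om),
      (∀ c' ∈ S', ∃ h : ph N c' ∈ A k, (⟨ph N c', h⟩ : A k) ∈ S) →
      ∀ s : ℕ → Om, (S'.Nonempty → ∀ k, s k ∈ S') → gr c ∈ closure (gr '' S') →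
      (∀ l, ∃ k', ((s k', false) : E) ∈ BE N (c, false) l ∧
        ((s k', true) : E) ∈ BE N (c, true) l) →
      (⟨ph N c, hk⟩ : A k) ∈ S := by
    intro S hS S' hS' s hs hc hl
    have hne : S'.Nonempty := by
      by_contra h
      rw [Set.not_nonempty_iff_eq_empty] at h
      subst h
      simp at hc
    rw [← hS.closure_eq, closure_subtype]
    change (⟨⟨(c, false)⟩, ⟨(c, true)⟩⟩ : XS N × XS N) ∈ _
    rw [closXX hN]
    intro l
    obtain ⟨k', hk1, hk2⟩ := hl l
    obtain ⟨h, hmem⟩ := hS' _ (hs hne k')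
    exact ⟨ph N (s k'), ⟨_, hmem, rfl⟩, hk1, hk2⟩
  obtain ⟨i, hi⟩ := hPRe k ⟨ph N c, hk⟩
  have hfg := hcK (k, (i : ℕ))
  have hpr : cb.pr (k, (i : ℕ)) (hs D (ph N c).1.pt (ph N c).2.pt) =
      cb.pr (k, (i : ℕ)) (D.h c) := by
    simp only [ph, hs_ph]
  have key1 : (⟨ph N c, hk⟩ : A k) ∈ P k i → (⟨ph N c, hk⟩ : A k) ∈ R k i := by
    intro hx
    have h4 : c ∈ P' (k, (i : ℕ)) := ⟨i.2, hk, hx⟩
    have h5 : f (k, (i : ℕ)) (gr c) = 0 := (hf3 _ _).2 (Or.inl (subset_closure ⟨c, h4, rfl⟩))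
    have h6 : g (k, (i : ℕ)) (gr c) = 0 := by rw [← hfg]; exact h5
    have h7 : gr c ∈ closure (gr '' R' (k, (i : ℕ))) := by
      rcases (hg3 _ _).1 h6 with h | h
      · exact h
      · exfalso
        have h8 := hP k i _ hx
        have h9 : cb.pr (k, (i : ℕ)) (D.h c) = 1 := h
        rw [hpr, h9] at h8
        norm_num at h8
    refine claim (R k i) (hRc k i) (R' (k, (i : ℕ))) ?_ (v (k, (i : ℕ))) (hv1 _) h7 ?_
    · rintro c' ⟨hj, hc', hm⟩
      exact ⟨hc', hm⟩
    · intro l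
      have e1 : (2 * Nat.pair k i + 1) % 2 = 1 := by omega
      have e2 : (2 * Nat.pair k i + 1) / 2 = Nat.pair k i := by omega
      have h8 := h2 (2 * Nat.pair k i + 1) (by
        simp only [e1, e2, one_ne_zero, if_false, Nat.unpair_pair]
        exact hcl c _ ((closure_minimal (hv2 _) isClosed_closure) h7)) l
      simpa only [e1, e2, one_ne_zero, if_false, Nat.unpair_pair] using h8
  have key2 : (⟨ph N c, hk⟩ : A k) ∈ R k i → (⟨ph N c, hk⟩ : A k) ∈ P k i := by
    intro hx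
    have h4 : c ∈ R' (k, (i : ℕ)) := ⟨i.2, hk, hx⟩
    have h5 : g (k, (i : ℕ)) (gr c) = 0 := (hg3 _ _).2 (Or.inl (subset_closure ⟨c, h4, rfl⟩))
    have h6 : f (k, (i : ℕ)) (gr c) = 0 := by rw [hfg]; exact h5
    have h7 : gr c ∈ closure (gr '' P' (k, (i : ℕ))) := by
      rcases (hf3 _ _).1 h6 with h | h
      · exact h
      · exfalso
        have h8 := hR k i _ hx
        have h9 : cb.pr (k, (i : ℕ)) (D.h c) = 0 := h
        rw [hpr, h9] at h8
        norm_num at h8
    refine claim (P k i) (hPc k i) (P' (k, (i : ℕ))) ?_ (u (k, (i : ℕ))) (hu1 _) h7 ?_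
    · rintro c' ⟨hj, hc', hm⟩
      exact ⟨hc', hm⟩
    · intro l
      have e1 : (2 * Nat.pair k i) % 2 = 0 := by omega
      have e2 : (2 * Nat.pair k i) / 2 = Nat.pair k i := by omega
      have h8 := h2 (2 * Nat.pair k i) (by
        simp only [e1, e2, if_true, Nat.unpair_pair]
        exact hcl c _ ((closure_minimal (hu2 _) isClosed_closure) h7)) l
      simpa only [e1, e2, if_true, Nat.unpair_pair] using h8
  rcases hPR k i ⟨ph N c, hk⟩ with h | h
  · rcases hi with h' | h'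
    · exact h' h
    · exact h' (key1 h)
  · rcases hi with h' | h'
    · exact h' (key2 h)
    · exact h' h

end H63Fed
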